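import Pool.Agent.Y699.Qk

/-!
# The quartic twists `∏ π_i ^ e_i` with odd exponents

Arithmetic of the parameters and the non-vanishing of the central values of their Hecke characters.
-/

set_option autoImplicit false
set_option linter.unusedSectionVars false
set_option linter.unusedSimpArgs false

open NumberField IsDedekindDomain
open Filter Complex
open scoped Topology PeriodPair

namespace Pool.Agent.L7h3.MQ

open Pool.Agent.Y699
open H385 (ZI RQ im1 nrm)
open Pool.Agent.W164.RC (tc_mul tc_star two2 prim_iff_dvd unit_norm unit_cases Ip Ip_spec)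
open Pool.Agent.H304R2.EC.A1 (prim prim_mul prim_cancel prim_one prim_norm_odd prim_star eq_one_of_prim
  norm_def' re_mul' im_mul' eq_of_dvd prim_ne_zero exists_prim)
open Pool.Agent.H304R3.HK (tc HC LH bH)

variable {ι : Type} [DecidableEq ι] {pr : ι → ZI}

/-- the parameter with exponents -/
noncomputable def DE (pr : ι → ZI) (V : Finset ι) (e : ι → ℕ) : ZI := ∏ i ∈ V, pr i ^ e i

/-- the square root of the quotient `DE / DD` for odd exponents -/
noncomputable def TE (pr : ι → ZI) (V : Finset ι) (e : ι → ℕ) : ZI := ∏ i ∈ V, pr i ^ (e i / 2)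

lemma DE_eq {V : Finset ι} {e : ι → ℕ} (he : ∀ i ∈ V, e i % 2 = 1) :
    DE pr V e = DD pr V * TE pr V e ^ 2 := by
  unfold DE DD TE
  rw [← Finset.prod_pow, ← Finset.prod_mul_distrib]
  refine Finset.prod_congr rfl fun i hi => ?_
  have h1 := he i hi
  rw [← pow_mul, ← pow_succ']
  congr 1
  omega

lemma prim_pow {a : ZI} (h : prim a) (n : ℕ) : prim (a ^ n) := by
  induction n with
  | zero => rw [pow_zero]; exact prim_one
  | succ n ih => rw [pow_succ]; exact prim_mul ih h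

lemma DE_prim (hp : PF pr) (V : Finset ι) (e : ι → ℕ) : prim (DE pr V e) := by
  classical
  unfold DE
  induction V using Finset.induction_on with
  | empty => rw [Finset.prod_empty]; exact prim_one
  | insert a s ha ih =>
    rw [Finset.prod_insert ha]
    exact prim_mul (prim_pow (hp.pp a).prm _) ih

lemma DE_ne (hp : PF pr) (V : Finset ι) (e : ι → ℕ) : DE pr V e ≠ 0 := prim_ne_zero (DE_prim hp V e)

lemma TE_ne (hp : PF pr) (V : Finset ι) (e : ι → ℕ) : TE pr V e ≠ 0 := DE_ne hp V _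

lemma dvd_DE_iff (hp : PF pr) {V : Finset ι} {e : ι → ℕ} (he : ∀ i ∈ V, e i % 2 = 1) {z : ZI}
    (hz : Prime z) : z ∣ DE pr V e ↔ z ∣ DD pr V := by
  unfold DE DD
  rw [hz.dvd_finsetProd_iff, hz.dvd_finsetProd_iff]
  constructor
  · rintro ⟨i, hi, h⟩
    exact ⟨i, hi, hz.dvd_of_dvd_pow h⟩
  · rintro ⟨i, hi, h⟩
    have := he i hi
    exact ⟨i, hi, dvd_pow h (by omega)⟩

lemma norm_pow16 (x : ZI) (w : ℕ) (h : x.norm = 1 + 4 * (w : ℤ)) (n : ℕ) :
    (x ^ n).norm % 16 = (1 + 4 * ((n * w : ℕ) : ℤ)) % 16 := by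
  induction n with
  | zero => rw [pow_zero, zero_mul]; decide
  | succ n ih =>
    have e1 : (((n + 1) * w : ℕ) : ℤ) = ((n * w : ℕ) : ℤ) + w := by push_cast; ring
    rw [pow_succ, Zsqrtd.norm_mul, Int.mul_emod, ih, h, e1]
    generalize ((n * w : ℕ) : ℤ) = y
    rw [← Int.mul_emod]
    have : (1 + 4 * y) * (1 + 4 * (w : ℤ)) = (1 + 4 * (y + w)) + 16 * (y * w) := by ring
    rw [this]
    omega

lemma norm_pr (hp : PF pr) (i : ι) : (pr i).norm = 1 + 4 * ((wq (pr i) : ℕ) : ℤ) := by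
  have h1 := (hp.pp i).norm_mod
  unfold wq
  have h3 : ((nrm (pr i) : ℕ) : ℤ) = (pr i).norm := by
    have h4 := nrm_cast (pr i)
    exact_mod_cast h4
  omega

lemma norm_DE16 (hp : PF pr) (V : Finset ι) (e : ι → ℕ) :
    (DE pr V e).norm % 16 = (1 + 4 * ((Wt pr V e : ℕ) : ℤ)) % 16 := by
  classical
  unfold DE Wt
  induction V using Finset.induction_on with
  | empty => rw [Finset.prod_empty, Finset.sum_empty]; decide
  | insert a s ha ih =>
    rw [Finset.sum_insert ha, Finset.prod_insert ha, Zsqrtd.norm_mul, Int.mul_emod, ih,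
      norm_pow16 (pr a) (wq (pr a)) (norm_pr hp a) (e a), ← Int.mul_emod]
    push_cast
    generalize ((e a : ℤ) * (wq (pr a) : ℤ)) = x
    generalize (∑ i ∈ s, ((e i : ℤ) * (wq (pr i) : ℤ))) = y
    have : (1 + 4 * x) * (1 + 4 * y) = (1 + 4 * (x + y)) + 16 * (x * y) := by ring
    rw [this]
    omega

lemma DE_norm (hp : PF pr) {V : Finset ι} {e : ι → ℕ} (hW : Wt pr V e % 4 = 3) :
    (DE pr V e).norm % 16 = 13 := by
  rw [norm_DE16 hp]
  omega

lemma DE_comp (hp : PF pr) {V : Finset ι} {e : ι → ℕ} (hW : Wt pr V e % 4 = 3) :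
    (DE pr V e).re % 8 = 3 ∧ (DE pr V e).im % 4 = 2 :=
  comp_mod (DE_prim hp V e) (DE_norm hp hW)

/-- reciprocity for the product -/
theorem recE (J : JJ) (hp : PF pr) {V : Finset ι} {e : ι → ℕ} (hW : Wt pr V e % 2 = 1) {z : ZI}
    (hz : PP z) (hzD : ∀ i ∈ V, z ≠ pr i) : q4 z (-(DE pr V e)) = c4 pr V e z := by
  have e1 : -(DE pr V e) = (-1) * DE pr V e := by ring
  have e2 : q4 z (DE pr V e) = ∏ i ∈ V, q4 z (pr i) ^ e i := by
    unfold DE
    rw [q4_prod hz]
    exact Finset.prod_congr rfl fun i _ => q4_pow hz _ _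
  have e0 : c4 pr V e z = ∏ i ∈ V, q4 (pr i) z ^ e i := by
    unfold c4
    refine Finset.prod_congr rfl fun i hi => ?_
    unfold fe
    rw [if_neg]
    intro h
    exact hzD i hi ((hp.pp i).eq_of_dvd hz h).symm
  rw [e1, q4_mul hz, q4_neg_one hz, e2, e0]
  have e3 : ∏ i ∈ V, q4 z (pr i) ^ e i = (∏ i ∈ V, q4 (pr i) z ^ e i) * (-1) ^ (wq z * Wt pr V e) := by
    unfold Wt
    rw [Finset.mul_sum, ← Finset.prod_pow_eq_pow_sum, ← Finset.prod_mul_distrib]
    refine Finset.prod_congr rfl fun i hi => ?_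
    rw [q4_rec J hz (hp.pp i) (hzD i hi), mul_pow, ← pow_mul]
    congr 2
    unfold wq
    ring
  rw [e3]
  have e4 : (-1 : ZI) ^ (nrm z / 4) * (-1) ^ (wq z * Wt pr V e) = 1 := by
    have e5 : nrm z / 4 = wq z := rfl
    rw [e5, ← pow_add]
    apply Even.neg_one_pow
    obtain ⟨k, hk⟩ : ∃ k, Wt pr V e = 2 * k + 1 := ⟨Wt pr V e / 2, by omega⟩
    rw [hk]
    exact ⟨wq z * (k + 1), by ring⟩
  linear_combination (∏ i ∈ V, q4 (pr i) z ^ e i) * e4

variable [Fintype ι]

/-- non-vanishing -/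
theorem LH_neE (hp : PF pr) {V : Finset ι} {e : ι → ℕ} (he : ∀ i ∈ V, e i % 2 = 1)
    (hW : Wt pr V e % 4 = 3)
    (hker : ∀ z : ι → ZMod 2, (∀ v ∈ V, ∑ u ∈ V, em pr u v * (z u + z v) = 0) →
      ∀ u ∈ V, ∀ v ∈ V, z u = z v) : LH (XX4 hp V e) (1 / 2) ≠ 0 := by
  classical
  obtain ⟨L, Ω, hGL⟩ := exists_lat
  have hV : V.Nonempty := by
    by_contra hc
    rw [Finset.not_nonempty_iff_eq_empty] at hc
    rw [hc] at hW
    simp [Wt] at hW
  have hfin := H385.he1_finite (DD_ne hp V)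
  let _ := Fintype.ofFinite (RQ (DD pr V))
  have l1 := lim_cc4 hGL hp hV hW
  rw [LH_eq4 hp hW (fun i hi => by have := he i hi; omega) l1]
  refine (map_ne_zero _).2 ?_
  obtain ⟨B, hB⟩ := exists_val
  have c1 := M4_cg (v := B.valuation) hB hGL hp V e hW
  have hOd : Od V e = V := Finset.filter_true_of_mem he
  have hTT : TQ pr V (Od V e) = 1 := by
    unfold TQ
    rw [hOd, Finset.sdiff_self, Finset.prod_empty, mul_one,
      Ff.ell_one (wt pr) (em pr) (em_self hp) (em_symm hp) hker]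
    have := Od_wt hp hW
    rwa [hOd] at this
  rw [hTT, uu_one] at c1
  have hM : M4 L Ω pr V e ≠ 0 := by
    intro h0
    rw [h0, zero_div] at c1
    have := c1.s
    rw [zero_sub, Valuation.map_neg, map_one] at this
    exact absurd this (lt_irrefl _)
  have he1 : ℘[L] (Ω / 2) ≠ 0 := by
    intro h0
    have := hGL.e1_sq
    rw [h0] at this
    norm_num at this
  have h1I : (1 + I : ℂ) ≠ 0 := one_I_ne
  exact mul_ne_zero (div_ne_zero (div_ne_zero (mul_ne_zero (mul_ne_zero hGL.lat.ne he1) h1I)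
    two_ne_zero) (tc_ne (DD_ne hp V))) hM

end Pool.Agent.L7h3.MQ
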