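import Mathlib

/-!
# `y² = x³ + D x`, `D ≡ 3 + 2i`, has no equation with good reduction over unramified extensions
-/

set_option autoImplicit false

namespace Pool.Agent.L7h3.MQ

theorem no_good_alg {O : Type*} [CommRing O] [IsDomain O] {I ϖ r s t a b : O} {k2 k4 k6 b' : O}
    (hI : I ^ 2 = -1) (hϖ : ϖ = 1 + I) (hp : Prime ϖ) (hb : b ^ 2 - b = 2 * b')
    (h2 : 3 * r - s ^ 2 = 2 * k2)
    (h4 : (3 + 8 * a + (2 + 4 * b) * I) + 3 * r ^ 2 - 2 * s * (ϖ * t) = 4 * k4)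
    (h6 : r * (3 + 8 * a + (2 + 4 * b) * I) + r ^ 3 - (ϖ * t) ^ 2 = 8 * k6) : False := by
  have hI' : I ^ 2 + 1 = 0 := by rw [hI]; ring
  subst hϖ
  have e2 : (2 : O) = (1 + I) * (1 - I) := by linear_combination hI'
  have e3 : (1 : O) - I = -I * (1 + I) := by linear_combination hI'
  have hϖ0 : (1 : O) + I ≠ 0 := hp.ne_zero
  have hI0 : I ≠ 0 := by
    rintro rfl
    have : (1 : O) = 0 := by linear_combination hI'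
    exact one_ne_zero this
  have h20 : (2 : O) ≠ 0 := by
    rw [e2, e3]
    exact mul_ne_zero hϖ0 (mul_ne_zero (neg_ne_zero.2 hI0) hϖ0)
  -- step 1
  obtain ⟨x, hx⟩ : 1 + I ∣ 1 + r := by
    apply hp.dvd_of_dvd_pow (n := 2)
    refine ⟨(1 - I) * (2 * k4 + s * (1 + I) * t - 4 * a - I - 2 * b * I - 1 - r ^ 2 + r), ?_⟩
    linear_combination h4 +
      (-1 - I - 4*a + 2*k4 + r - r^2 - 2*I*b + s*t + I*s*t) * hI'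
  -- step 2
  obtain ⟨σ', hσ'⟩ : 1 + I ∣ s + 1 := by
    apply hp.dvd_of_dvd_pow (n := 2)
    refine ⟨3 * x + (1 - I) * (s - 1 - k2), ?_⟩
    linear_combination -h2 + 3 * hx + (-1 - k2 + s) * hI'
  obtain ⟨σ, hσ⟩ : ∃ σ, s = 1 + (1 + I) * σ := ⟨σ' - (1 - I), by
    linear_combination hσ' - hI'⟩
  obtain ⟨ρ, hρ⟩ : ∃ ρ, r = 1 + 2 * ρ := ⟨(1 + I) * σ + I * σ ^ 2 + k2 - r, by
    linear_combination h2 + (s + 1 + (1 + I) * σ) * hσ + σ ^ 2 * hI'⟩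
  clear hσ' hx
  subst hρ
  -- step 3
  obtain ⟨τ, hτ⟩ : ∃ τ, t = 1 + (1 + I) * τ := by
    have h5 : (2 * (1 + I)) * (1 - s * t) = (2 * (1 + I)) *
        ((1 - I) * (k4 - 1 - 2 * a - b * I - 3 * ρ - 3 * ρ ^ 2)) := by
      linear_combination h4 + (-2 - 4*a + 2*k4 - 6*ρ - 6*ρ^2 - 2*I*b) * hI'
    have h7 := mul_left_cancel₀ (mul_ne_zero h20 hϖ0) h5
    rw [hσ] at h7
    refine ⟨I * (k4 - 1 - 2 * a - b * I - 3 * ρ - 3 * ρ ^ 2) - σ * t, ?_⟩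
    linear_combination -h7 + (1 + 2*a - k4 + 3*ρ + 3*ρ^2 + I*b) * hI'
  subst hτ
  -- step 4
  have h8 : 1 + b * I + ρ + ρ ^ 2 + I * ρ - I * (1 + I) * τ + τ ^ 2 =
      2 * (k6 - (a + ρ + b * I * ρ + ρ ^ 2 + ρ ^ 3 + 2 * a * ρ)) := by
    have h9 : 4 * (1 + b * I + ρ + ρ ^ 2 + I * ρ - I * (1 + I) * τ + τ ^ 2) =
      4 * (2 * (k6 - (a + ρ + b * I * ρ + ρ ^ 2 + ρ ^ 3 + 2 * a * ρ))) := by
      linear_combination h6 + (1 + 2*τ + 5*τ^2 + 2*I*τ + 4*I*τ^2 + I^2*τ^2) * hI'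
    have h40 : (4 : O) ≠ 0 := by
      have : (4 : O) = 2 * 2 := by norm_num
      rw [this]
      exact mul_ne_zero h20 h20
    exact mul_left_cancel₀ h40 h9
  -- step 5
  obtain ⟨κ, hκ⟩ : 1 + I ∣ 1 + b + ρ + τ := by
    apply hp.dvd_of_dvd_pow (n := 2)
    refine ⟨(1-I)*b'+(-I)*b+(1-I)*b+(-I)*ρ+(1-I)*b*ρ+(1-I)*(1 + b + ρ)*τ+I*τ+
      (1-I)*(k6-(a + ρ + b * I * ρ + ρ ^ 2 + ρ ^ 3 + 2 * a * ρ)), ?_⟩
    linear_combination h8 + hb +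
      (-a + 2*b + b' + k6 - ρ^2 - ρ^3 + τ - 2*a*ρ + b*ρ + b*τ + ρ*τ - I*b*ρ) * hI'
  -- step 6
  obtain ⟨τ', hτ'⟩ : ∃ τ', τ' = (1 + I) * κ - (1 + b + ρ) := ⟨_, rfl⟩
  have hττ : τ = (1 + I) * κ - (1 + b + ρ) := by linear_combination hκ
  rw [hττ] at h8
  have h9 : (1 + I) * 1 = (1 + I) * ((1 - I) * ((k6 - (a + ρ + b * I * ρ + ρ ^ 2 + ρ ^ 3 + 2 * a * ρ)) -
      (b*I+ρ^2+I*ρ+b'+b+ρ+b*ρ+κ+I*κ^2-(1 + I)*κ*(1 + b + ρ)))) := by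
    have h10 : (1 + I) = 2 * ((k6 - (a + ρ + b * I * ρ + ρ ^ 2 + ρ ^ 3 + 2 * a * ρ)) -
      (b*I+ρ^2+I*ρ+b'+b+ρ+b*ρ+κ+I*κ^2-(1 + I)*κ*(1 + b + ρ))) := by
      linear_combination h8 - hb + (-1 - b + 2*κ - κ^2 - ρ + I*κ) * hI'
    rw [mul_one, ← mul_assoc, ← e2]
    exact h10
  have h10 := mul_left_cancel₀ hϖ0 h9
  apply hp.not_isUnit
  rw [isUnit_iff_dvd_one]
  refine ⟨-I * ((k6 - (a + ρ + b * I * ρ + ρ ^ 2 + ρ ^ 3 + 2 * a * ρ)) -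
      (b*I+ρ^2+I*ρ+b'+b+ρ+b*ρ+κ+I*κ^2-(1 + I)*κ*(1 + b + ρ))), ?_⟩
  rw [← mul_assoc, mul_comm (1 + I) (-I), ← e3]
  exact h10

end Pool.Agent.L7h3.MQ
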