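import Pool.Agent.L7h3.MQ.Fp

/-!
# The places of a quadratic extension
-/

set_option autoImplicit false
set_option linter.unusedSectionVars false

open NumberField IsDedekindDomain

namespace Pool.Agent.L7h3.MQ

open scoped Classical
open Pool.Agent.H921R2.TatePole (nm two_le_nm)

section general

variable {F F' : Type} [Field F] [NumberField F] [Field F'] [NumberField F'] [Algebra F F']

/-- the place below -/
noncomputable def und (v : HeightOneSpectrum (𝓞 F')) : HeightOneSpectrum (𝓞 F) :=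
  ⟨v.asIdeal.under (𝓞 F), inferInstance, by
    intro h
    exact v.ne_bot (Ideal.eq_bot_of_comap_eq_bot h)⟩

lemma und_lies {v : HeightOneSpectrum (𝓞 F')} {P : HeightOneSpectrum (𝓞 F)} (h : und v = P) :
    v.asIdeal.LiesOver P.asIdeal := by
  rw [← h]
  exact ⟨rfl⟩

lemma mem_und (v : HeightOneSpectrum (𝓞 F')) (x : 𝓞 F) :
    x ∈ (und (F := F) v).asIdeal ↔ algebraMap (𝓞 F) (𝓞 F') x ∈ v.asIdeal := Iff.rfl

instance fib_finite (P : HeightOneSpectrum (𝓞 F)) :
    Finite {v : HeightOneSpectrum (𝓞 F') // und v = P} := by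
  obtain ⟨x, hx, hx0⟩ := P.asIdeal.ne_bot_iff.1 P.ne_bot
  have h1 : algebraMap (𝓞 F) (𝓞 F') x ≠ 0 := by
    rw [Ne, map_eq_zero_iff _ (FaithfulSMul.algebraMap_injective (𝓞 F) (𝓞 F'))]
    exact hx0
  have h2 : (Ideal.span {algebraMap (𝓞 F) (𝓞 F') x} : Ideal (𝓞 F')) ≠ ⊥ := by
    rwa [Ne, Ideal.span_singleton_eq_bot]
  have h3 : {v : HeightOneSpectrum (𝓞 F') | und v = P}.Finite := by
    refine (Ideal.finite_factors h2).subset fun v hv => ?_
    have h4 : und v = P := hv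
    show v.asIdeal ∣ Ideal.span {algebraMap (𝓞 F) (𝓞 F') x}
    rw [Ideal.dvd_span_singleton, ← mem_und, h4]
    exact hx
  exact h3

noncomputable instance fib_fintype (P : HeightOneSpectrum (𝓞 F)) :
    Fintype {v : HeightOneSpectrum (𝓞 F') // und v = P} := Fintype.ofFinite _

/-- the ramification index -/
noncomputable abbrev ee (P : HeightOneSpectrum (𝓞 F)) (v : HeightOneSpectrum (𝓞 F')) : ℕ :=
  P.asIdeal.ramificationIdx' v.asIdeal

/-- the residue degree -/
noncomputable abbrev ff (P : HeightOneSpectrum (𝓞 F)) (v : HeightOneSpectrum (𝓞 F')) : ℕ :=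
  P.asIdeal.inertiaDeg' v.asIdeal

lemma nm_pow {v : HeightOneSpectrum (𝓞 F')} {P : HeightOneSpectrum (𝓞 F)} (h : und v = P) :
    nm v = nm P ^ ff P v := by
  have hl := und_lies h
  have : P.asIdeal.IsMaximal := P.isPrime.isMaximal P.ne_bot
  have : v.asIdeal.IsMaximal := v.isPrime.isMaximal v.ne_bot
  have : Finite (𝓞 F ⧸ P.asIdeal) := Ideal.finiteQuotientOfFreeOfNeBot P.asIdeal P.ne_bot
  have : Finite (𝓞 F' ⧸ v.asIdeal) := Ideal.finiteQuotientOfFreeOfNeBot v.asIdeal v.ne_bot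
  let _ := Ideal.Quotient.field P.asIdeal
  unfold ff
  rw [Ideal.inertiaDeg'_algebraMap]
  show Ideal.absNorm v.asIdeal = Ideal.absNorm P.asIdeal ^ _
  rw [Ideal.absNorm_apply, Ideal.absNorm_apply, Submodule.cardQuot_apply, Submodule.cardQuot_apply]
  exact Module.natCard_eq_pow_finrank (K := 𝓞 F ⧸ P.asIdeal) (V := 𝓞 F' ⧸ v.asIdeal)

/-- the splitting of a place in a quadratic extension -/
theorem split_cases (h2 : Module.finrank F F' = 2) (P : HeightOneSpectrum (𝓞 F)) :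
    (∃ v1 v2 : HeightOneSpectrum (𝓞 F'), v1 ≠ v2 ∧ (∀ v, und v = P ↔ v = v1 ∨ v = v2) ∧
      ∀ v : HeightOneSpectrum (𝓞 F'), und v = P → ee P v = 1 ∧ ff P v = 1) ∨
    (∃ v0 : HeightOneSpectrum (𝓞 F'), (∀ v, und v = P ↔ v = v0) ∧ ee P v0 * ff P v0 = 2) := by
  have hmax : P.asIdeal.IsMaximal := P.isPrime.isMaximal P.ne_bot
  set s := IsDedekindDomain.primesOverFinset P.asIdeal (𝓞 F') with hs
  have hmem : ∀ Q : Ideal (𝓞 F'), Q ∈ s ↔ Q.IsPrime ∧ Q.LiesOver P.asIdeal := fun Q =>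
    IsDedekindDomain.mem_primesOverFinset_iff P.ne_bot (𝓞 F')
  have hsum : ∑ Q ∈ s, P.asIdeal.ramificationIdx' Q * P.asIdeal.inertiaDeg' Q = 2 := by
    rw [← h2]
    exact Ideal.sum_ramification_inertia (𝓞 F') F F' P.ne_bot
  have hpos : ∀ Q ∈ s, 1 ≤ P.asIdeal.ramificationIdx' Q * P.asIdeal.inertiaDeg' Q := by
    intro Q hQ
    obtain ⟨h3, h4⟩ := (hmem Q).1 hQ
    have h5 := Ideal.IsDedekindDomain.ramificationIdx'_ne_zero_of_liesOver (p := P.asIdeal) Q P.ne_bot
    have h6 : 0 < P.asIdeal.inertiaDeg' Q := Ideal.inertiaDeg'_pos P.asIdeal Q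
    exact Nat.succ_le_of_lt (Nat.mul_pos (Nat.pos_of_ne_zero h5) h6)
  have hhs : ∀ Q ∈ s, ∃ v : HeightOneSpectrum (𝓞 F'), v.asIdeal = Q ∧ und v = P := by
    intro Q hQ
    obtain ⟨h3, h4⟩ := (hmem Q).1 hQ
    have hne : Q ≠ ⊥ := by
      rintro rfl
      apply P.ne_bot
      rw [h4.over]
      exact Ideal.under_bot _ _
    refine ⟨⟨Q, h3, hne⟩, rfl, ?_⟩
    apply HeightOneSpectrum.ext
    exact h4.over.symm
  have hund : ∀ v : HeightOneSpectrum (𝓞 F'), und v = P ↔ v.asIdeal ∈ s := by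
    intro v
    constructor
    · intro h
      exact (hmem _).2 ⟨v.isPrime, und_lies h⟩
    · intro h
      obtain ⟨v', h3, h4⟩ := hhs _ h
      rw [HeightOneSpectrum.ext h3.symm]
      exact h4
  have hcard : s.card ≤ 2 := by
    calc s.card = ∑ Q ∈ s, 1 := by simp
      _ ≤ ∑ Q ∈ s, P.asIdeal.ramificationIdx' Q * P.asIdeal.inertiaDeg' Q := Finset.sum_le_sum hpos
      _ = 2 := hsum
  have hcard0 : s.card ≠ 0 := by
    intro h
    rw [Finset.card_eq_zero] at h
    rw [h, Finset.sum_empty] at hsum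
    omega
  have hc : s.card = 1 ∨ s.card = 2 := by omega
  rcases hc with hc | hc
  · right
    obtain ⟨Q, hQ⟩ := Finset.card_eq_one.1 hc
    obtain ⟨v0, h3, h4⟩ := hhs Q (by rw [hQ]; exact Finset.mem_singleton_self _)
    refine ⟨v0, fun v => ?_, ?_⟩
    · rw [hund, hQ, Finset.mem_singleton, ← h3]
      exact ⟨fun h => HeightOneSpectrum.ext h, fun h => by rw [h]⟩
    · rw [hQ, Finset.sum_singleton, ← h3] at hsum
      exact hsum
  · left
    obtain ⟨Q1, Q2, hne, hQ⟩ := Finset.card_eq_two.1 hc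
    obtain ⟨v1, h3, h4⟩ := hhs Q1 (by rw [hQ]; simp)
    obtain ⟨v2, h5, h6⟩ := hhs Q2 (by rw [hQ]; simp)
    have hone : ∀ Q ∈ s, P.asIdeal.ramificationIdx' Q * P.asIdeal.inertiaDeg' Q = 1 := by
      rw [hQ, Finset.sum_pair hne] at hsum
      have a1 := hpos Q1 (by rw [hQ]; simp)
      have a2 := hpos Q2 (by rw [hQ]; simp)
      intro Q hQQ
      rw [hQ, Finset.mem_insert, Finset.mem_singleton] at hQQ
      rcases hQQ with rfl | rfl <;> omega
    refine ⟨v1, v2, ?_, fun v => ?_, fun v hv => ?_⟩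
    · intro h
      apply hne
      rw [← h3, ← h5, h]
    · rw [hund, hQ, Finset.mem_insert, Finset.mem_singleton, ← h3, ← h5]
      constructor
      · rintro (h | h)
        · exact Or.inl (HeightOneSpectrum.ext h)
        · exact Or.inr (HeightOneSpectrum.ext h)
      · rintro (h | h)
        · exact Or.inl (by rw [h])
        · exact Or.inr (by rw [h])
    · have h7 := hone _ ((hund v).1 hv)
      exact ⟨Nat.eq_one_of_mul_eq_one_right h7, Nat.eq_one_of_mul_eq_one_left h7⟩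

/-- residue degree one -/
lemma exists_lift {v : HeightOneSpectrum (𝓞 F')} {P : HeightOneSpectrum (𝓞 F)} (h : und v = P)
    (hf : ff P v = 1) (x : 𝓞 F') : ∃ a : 𝓞 F, x - algebraMap (𝓞 F) (𝓞 F') a ∈ v.asIdeal := by
  have hl := und_lies h
  have : P.asIdeal.IsMaximal := P.isPrime.isMaximal P.ne_bot
  have : v.asIdeal.IsMaximal := v.isPrime.isMaximal v.ne_bot
  have i1 : Finite (𝓞 F ⧸ P.asIdeal) := Ideal.finiteQuotientOfFreeOfNeBot P.asIdeal P.ne_bot
  have i2 : Finite (𝓞 F' ⧸ v.asIdeal) := Ideal.finiteQuotientOfFreeOfNeBot v.asIdeal v.ne_bot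
  let _ := Ideal.Quotient.field P.asIdeal
  have hinj : Function.Injective (algebraMap (𝓞 F ⧸ P.asIdeal) (𝓞 F' ⧸ v.asIdeal)) :=
    RingHom.injective _
  have hcard : Nat.card (𝓞 F' ⧸ v.asIdeal) ≤ Nat.card (𝓞 F ⧸ P.asIdeal) := by
    have h1 := nm_pow h
    rw [hf, pow_one] at h1
    have h2 : Ideal.absNorm v.asIdeal = Ideal.absNorm P.asIdeal := h1
    rw [Ideal.absNorm_apply, Ideal.absNorm_apply, Submodule.cardQuot_apply,
      Submodule.cardQuot_apply] at h2
    exact h2.le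
  have hbij := hinj.bijective_of_nat_card_le hcard
  obtain ⟨y, hy⟩ := hbij.2 (Ideal.Quotient.mk _ x)
  obtain ⟨a, rfl⟩ := Ideal.Quotient.mk_surjective y
  refine ⟨a, ?_⟩
  rw [← Ideal.Quotient.eq]
  exact hy.symm

/-- valuations -/
lemma val_und {v : HeightOneSpectrum (𝓞 F')} {P : HeightOneSpectrum (𝓞 F)} (h : und v = P) (x : F) :
    v.valuation F' (algebraMap F F' x) = P.valuation F x ^ ee P v := by
  have hl := und_lies h
  exact (HeightOneSpectrum.valuation_liesOver F' P v x).symm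

end general

section conj

variable {F F' : Type} [Field F] [NumberField F] [Field F'] [NumberField F'] [Algebra F F']

/-- the automorphism on the integers -/
noncomputable def intAut (σ : F' ≃ₐ[F] F') : 𝓞 F' ≃+* 𝓞 F' := RingOfIntegers.mapRingEquiv σ

lemma intAut_coe (σ : F' ≃ₐ[F] F') (x : 𝓞 F') : ((intAut σ x : 𝓞 F') : F') = σ (x : F') := rfl

lemma intAut_base (σ : F' ≃ₐ[F] F') (a : 𝓞 F) :
    intAut σ (algebraMap (𝓞 F) (𝓞 F') a) = algebraMap (𝓞 F) (𝓞 F') a := by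
  apply RingOfIntegers.ext
  rw [intAut_coe]
  have h : ((algebraMap (𝓞 F) (𝓞 F') a : 𝓞 F') : F') = algebraMap F F' (a : F) := rfl
  rw [h]
  exact σ.commutes _

/-- the automorphism preserves the place if it is the only one -/
lemma stable {v : HeightOneSpectrum (𝓞 F')} {P : HeightOneSpectrum (𝓞 F)}
    (h : ∀ w : HeightOneSpectrum (𝓞 F'), und w = P ↔ w = v) (σ : F' ≃ₐ[F] F') {x : 𝓞 F'}
    (hx : x ∈ v.asIdeal) : intAut σ x ∈ v.asIdeal := by
  have hne : v.asIdeal.comap ((intAut σ).symm : 𝓞 F' →+* 𝓞 F') ≠ ⊥ := by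
    intro h0
    obtain ⟨y, hy, hy0⟩ := v.asIdeal.ne_bot_iff.1 v.ne_bot
    have h1 : intAut σ y ∈ v.asIdeal.comap ((intAut σ).symm : 𝓞 F' →+* 𝓞 F') := by
      rw [Ideal.mem_comap]
      show (intAut σ).symm (intAut σ y) ∈ v.asIdeal
      rwa [RingEquiv.symm_apply_apply]
    rw [h0, Ideal.mem_bot] at h1
    exact hy0 ((map_eq_zero_iff _ (intAut σ).injective).1 h1)
  let w : HeightOneSpectrum (𝓞 F') := ⟨v.asIdeal.comap ((intAut σ).symm : 𝓞 F' →+* 𝓞 F'),
    Ideal.comap_isPrime _ _, hne⟩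
  have hw : und w = P := by
    rw [← (h v).2 rfl]
    apply HeightOneSpectrum.ext
    ext a
    rw [mem_und, mem_und]
    show (intAut σ).symm (algebraMap (𝓞 F) (𝓞 F') a) ∈ v.asIdeal ↔ _
    have h1 : (intAut σ).symm (algebraMap (𝓞 F) (𝓞 F') a) = algebraMap (𝓞 F) (𝓞 F') a := by
      rw [RingEquiv.symm_apply_eq, intAut_base]
    rw [h1]
  have hwv := (h w).1 hw
  rw [← hwv]
  show (intAut σ).symm (intAut σ x) ∈ v.asIdeal
  rwa [RingEquiv.symm_apply_apply]

/-- the criterion for an unramified place -/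
theorem unram_of (h2 : Module.finrank F F' = 2) (σ : F' ≃ₐ[F] F') {P : HeightOneSpectrum (𝓞 F)}
    {v : HeightOneSpectrum (𝓞 F')} (hv : und v = P) {x : 𝓞 F'} (hx : intAut σ x - x ∉ v.asIdeal) :
    ee P v = 1 := by
  rcases split_cases h2 P with ⟨v1, v2, -, -, h⟩ | ⟨v0, h, hef⟩
  · exact (h v hv).1
  · have hv0 := (h v).1 hv
    subst hv0
    by_contra he
    have hf : ff P v = 1 := by
      have h3 : ee P v ≠ 0 := by
        intro h0
        rw [h0, zero_mul] at hef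
        omega
      have h4 : ff P v ≠ 0 := by
        intro h0
        rw [h0, mul_zero] at hef
        omega
      have h5 : 2 ≤ ee P v := by omega
      by_contra h6
      have h7 : 2 ≤ ff P v := by omega
      have h8 : 2 * 2 ≤ ee P v * ff P v := Nat.mul_le_mul h5 h7
      omega
    obtain ⟨a, ha⟩ := exists_lift hv hf x
    apply hx
    have h1 := stable h σ ha
    rw [map_sub, intAut_base] at h1
    have h3 := v.asIdeal.sub_mem h1 ha
    have e : intAut σ x - algebraMap (𝓞 F) (𝓞 F') a - (x - algebraMap (𝓞 F) (𝓞 F') a) =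
        intAut σ x - x := by ring
    rwa [e] at h3

end conj

end Pool.Agent.L7h3.MQ
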