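import Pool.Agent.L7h3.MQ.Lc
import Pool.Agent.L7h3.MQ.Sp
import Pool.Agent.W165.CE.FF

/-!
# Point counts and the Euler factors of a quadratic extension
-/

set_option autoImplicit false
set_option linter.unusedSectionVars false

open NumberField IsDedekindDomain

namespace Pool.Agent.L7h3.MQ

open scoped Classical
open Pool.Agent.W189.NF (aV eV)
open Pool.Agent.H921R2.TatePole (nm two_le_nm)
open Pool.Agent.Y696 (HBd)
open Pool.Agent.Y715.Z (q4)
open Pool.Agent.Y699 (cnt4)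
open Pool.Agent.H82R3.EK (luc card_points)
open Pool.Agent.H341R2.Sharp (T T_eq_sum)

section finite

variable {k k' : Type} [Field k] [Fintype k] [Field k'] [Fintype k'] [Algebra k k']

/-- the number of solutions of `y² = x³ + δ x` -/
noncomputable def cn {k : Type} [Field k] (δ : k) : ℕ :=
  Nat.card {x : k × k // x.2 ^ 2 = x.1 ^ 3 + δ * x.1}

lemma cn_eq (hk : ringChar k ≠ 2) (δ : k) :
    (cn δ : ℤ) = Fintype.card k + ∑ x : k, quadraticChar k (x ^ 3 + δ * x) := by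
  unfold cn
  exact card_points hk (fun x : k => x ^ 3 + δ * x)

/-- the number of points over an extension -/
theorem cn_ext (hk : ringChar k ≠ 2) {δ : k} (hδ : δ ≠ 0) :
    (Fintype.card k' : ℤ) - cn (algebraMap k k' δ) =
      luc ((Fintype.card k : ℤ) - cn δ) (Fintype.card k) (Module.finrank k k') := by
  have h2 : (2 : k) ≠ 0 := Ring.two_ne_zero hk
  have key : ∀ {E : Type} [Field E] [Fintype E] [Algebra k E],
      (Fintype.card E : ℤ) - cn (algebraMap k E δ) =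
      - T (W165.CE.wei δ 0) (Module.finrank k E) := by
    intro E _ _ _
    have hE : ringChar E ≠ 2 := by
      rwa [← Algebra.ringChar_eq k E]
    rw [cn_eq hE, T_eq_sum (E := E) hk]
    have : ∀ x : E, Polynomial.aeval x (W165.CE.wei δ 0) = x ^ 3 + algebraMap k E δ * x := by
      intro x
      rw [W165.CE.aeval_wei, map_zero, add_zero]
    simp_rw [this]
    ring
  have h1 := key (E := k)
  rw [Module.finrank_self, Algebra.algebraMap_self, RingHom.id_apply] at h1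
  rw [key (E := k'), h1]
  have hpos : 0 < Module.finrank k k' := Module.finrank_pos
  obtain ⟨n, hn⟩ := Nat.exists_eq_succ_of_ne_zero hpos.ne'
  rw [hn, Nat.succ_eq_add_one, W165.CE.T_luc hk (W165.CE.wei_natDegree _ _)
    (W165.CE.wei_monic _ _) n, W165.CE.A_two hk δ 0 ?_]
  · ring
  · have h3 : 4 * δ ^ 3 + 27 * (0 : k) ^ 2 = 2 ^ 2 * δ ^ 3 := by ring
    rw [h3]
    exact mul_ne_zero (pow_ne_zero 2 h2) (pow_ne_zero 3 hδ)

lemma cn_fourth (δ : k) {c : k} (hc : c ≠ 0) : cn (δ * c ^ 4) = cn δ := by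
  unfold cn
  refine (Nat.card_congr
    (⟨fun x => ⟨(c ^ 2 * x.1.1, c ^ 3 * x.1.2), by
        have h := x.2
        show (c ^ 3 * x.1.2) ^ 2 = (c ^ 2 * x.1.1) ^ 3 + δ * c ^ 4 * (c ^ 2 * x.1.1)
        linear_combination c ^ 6 * h⟩,
      fun x => ⟨(x.1.1 / c ^ 2, x.1.2 / c ^ 3), by
        have h := x.2
        show (x.1.2 / c ^ 3) ^ 2 = (x.1.1 / c ^ 2) ^ 3 + δ * (x.1.1 / c ^ 2)
        field_simp
        linear_combination h⟩, ?_, ?_⟩ :
      {x : k × k // x.2 ^ 2 = x.1 ^ 3 + δ * x.1} ≃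
        {x : k × k // x.2 ^ 2 = x.1 ^ 3 + δ * c ^ 4 * x.1})).symm
  · intro x
    apply Subtype.ext
    apply Prod.ext
    · show c ^ 2 * x.1.1 / c ^ 2 = x.1.1
      field_simp
    · show c ^ 3 * x.1.2 / c ^ 3 = x.1.2
      field_simp
  · intro x
    apply Subtype.ext
    apply Prod.ext
    · show c ^ 2 * (x.1.1 / c ^ 2) = x.1.1
      field_simp
    · show c ^ 3 * (x.1.2 / c ^ 3) = x.1.2
      field_simp

lemma cn_twist (hk : ringChar k ≠ 2) (δ : k) {d : k} (hd : ¬ IsSquare d) :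
    (Fintype.card k : ℤ) - cn (δ * d ^ 2) = -((Fintype.card k : ℤ) - cn δ) := by
  have hd0 : d ≠ 0 := by
    rintro rfl
    exact hd ⟨0, by ring⟩
  have h1 : quadraticChar k d = -1 := (quadraticChar_neg_one_iff_not_isSquare).2 hd
  rw [cn_eq hk, cn_eq hk]
  have h2 : ∑ x : k, quadraticChar k (x ^ 3 + δ * d ^ 2 * x) =
      ∑ x : k, quadraticChar k ((d * x) ^ 3 + δ * d ^ 2 * (d * x)) :=
    (Fintype.sum_equiv (Equiv.mulLeft₀ d hd0) _ _ (fun y => rfl)).symm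
  have h3 : ∀ x : k, quadraticChar k ((d * x) ^ 3 + δ * d ^ 2 * (d * x)) =
      -quadraticChar k (x ^ 3 + δ * x) := by
    intro x
    have e : (d * x) ^ 3 + δ * d ^ 2 * (d * x) = d ^ 3 * (x ^ 3 + δ * x) := by ring
    rw [e, map_mul, map_pow, h1]
    ring
  rw [h2]
  simp_rw [h3]
  rw [Finset.sum_neg_distrib]
  ring

/-- the bound of Hasse -/
lemma cn_hasse (hk : ringChar k ≠ 2) (δ : k) :
    HBd ((Fintype.card k : ℤ) - cn δ) (Fintype.card k) (Fintype.card k) := by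
  have h := W165.CE.hasse hk δ 0
  simp only [add_zero] at h
  have e1 : (((Fintype.card k : ℤ) - cn δ : ℤ) : ℝ) = (((Fintype.card k : ℤ) : ℝ) -
      ((Nat.card {x : k × k // x.2 ^ 2 = x.1 ^ 3 + δ * x.1} : ℕ) : ℝ)) := by
    push_cast
    rfl
  set a : ℤ := (Fintype.card k : ℤ) - cn δ with ha
  set q : ℝ := ((Fintype.card k : ℕ) : ℝ) with hq
  have hq0 : 0 ≤ q := by rw [hq]; positivity
  have h1 : |(a : ℝ)| ≤ 2 * Real.sqrt q := by
    rw [e1]
    have e2 : (((Fintype.card k : ℕ) : ℤ) : ℝ) = q := by rw [hq]; push_cast; rfl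
    rw [e2] at h ⊢
    exact h
  have h2 : (a : ℝ) ^ 2 ≤ 4 * q := by
    have h3 : |(a : ℝ)| ^ 2 ≤ (2 * Real.sqrt q) ^ 2 := by gcongr
    rw [sq_abs, mul_pow, Real.sq_sqrt hq0] at h3
    linarith
  right
  refine ⟨⟨(a : ℝ) / 2, Real.sqrt (q - (a : ℝ) ^ 2 / 4)⟩, ?_, ?_, ?_⟩
  · apply Complex.ext
    · simp
    · simp
  · apply Complex.ext
    · simp only [Complex.mul_re, Complex.conj_re, Complex.conj_im, Int.cast_natCast,
        Complex.natCast_re]
      have h4 := Real.mul_self_sqrt (show 0 ≤ q - (a : ℝ) ^ 2 / 4 by linarith)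
      rw [← hq]
      linear_combination -h4
    · simp only [Complex.mul_im, Complex.conj_re, Complex.conj_im, Int.cast_natCast,
        Complex.natCast_im]
      ring
  · apply Complex.ext
    · simp only [Complex.mul_re, Complex.conj_re, Complex.conj_im, Complex.natCast_re]
      have h4 := Real.mul_self_sqrt (show 0 ≤ q - (a : ℝ) ^ 2 / 4 by linarith)
      rw [← hq]
      linear_combination h4
    · simp only [Complex.mul_im, Complex.conj_re, Complex.conj_im, Complex.natCast_im]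
      ring

end finite

section place

variable {F F' : Type} [Field F] [NumberField F] [Field F'] [NumberField F'] [Algebra F F']

/-- the characteristic of the residue field -/
lemma res_char {P : HeightOneSpectrum (𝓞 F)} (h : (2 : 𝓞 F) ∉ P.asIdeal) [Field (𝓞 F ⧸ P.asIdeal)]
    (hf : ∀ x : 𝓞 F, (Ideal.Quotient.mk P.asIdeal x : 𝓞 F ⧸ P.asIdeal) = 0 ↔ x ∈ P.asIdeal)
    (h2 : ((2 : 𝓞 F ⧸ P.asIdeal)) = Ideal.Quotient.mk P.asIdeal 2) :
    ringChar (𝓞 F ⧸ P.asIdeal) ≠ 2 := by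
  intro hc
  apply h
  rw [← hf, ← h2]
  have h3 : ((2 : ℕ) : 𝓞 F ⧸ P.asIdeal) = 0 := by
    rw [ringChar.spec, hc]
  exact_mod_cast h3

/-- the Hasse bound at the good places -/
theorem good_hbd {P : HeightOneSpectrum (𝓞 F)} {δ : 𝓞 F} (h : (2 : 𝓞 F) * δ ∉ P.asIdeal) :
    HBd (aV (q4 (δ : F)) P) (eV (q4 (δ : F)) P) (nm P) := by
  obtain ⟨h1, h2⟩ := good_place h
  have h2P : (2 : 𝓞 F) ∉ P.asIdeal := fun h' => h (P.asIdeal.mul_mem_right _ h')
  have i1 : Finite (𝓞 F ⧸ P.asIdeal) := Ideal.finiteQuotientOfFreeOfNeBot P.asIdeal P.ne_bot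
  have : P.asIdeal.IsMaximal := P.isPrime.isMaximal P.ne_bot
  let _ := Ideal.Quotient.field P.asIdeal
  let _ := Fintype.ofFinite (𝓞 F ⧸ P.asIdeal)
  have hk : ringChar (𝓞 F ⧸ P.asIdeal) ≠ 2 :=
    res_char h2P (fun x => Ideal.Quotient.eq_zero_iff_mem) (map_ofNat _ 2).symm
  have h3 := cn_hasse hk (Ideal.Quotient.mk P.asIdeal δ)
  have hc : (Fintype.card (𝓞 F ⧸ P.asIdeal)) = nm P := by
    rw [← Nat.card_eq_fintype_card]
    show _ = Ideal.absNorm P.asIdeal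
    rw [Ideal.absNorm_apply, Submodule.cardQuot_apply]
  rw [hc] at h3
  rw [h1, h2]
  exact h3

/-- the coefficient at a place above a good place -/
theorem aV_above {P : HeightOneSpectrum (𝓞 F)} {v : HeightOneSpectrum (𝓞 F')} (hv : und v = P)
    {δ : 𝓞 F} (h : (2 : 𝓞 F) * δ ∉ P.asIdeal) :
    aV (q4 ((algebraMap (𝓞 F) (𝓞 F') δ : 𝓞 F') : F')) v = luc (aV (q4 (δ : F)) P) (nm P) (ff P v) ∧
      eV (q4 ((algebraMap (𝓞 F) (𝓞 F') δ : 𝓞 F') : F')) v = (nm v : ℤ) := by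
  have h' : (2 : 𝓞 F') * algebraMap (𝓞 F) (𝓞 F') δ ∉ v.asIdeal := by
    intro h1
    apply h
    rw [← hv, mem_und, map_mul, map_ofNat]
    exact h1
  obtain ⟨h1, h2⟩ := good_place h
  obtain ⟨h3, h4⟩ := good_place h'
  refine ⟨?_, h4⟩
  have h2P : (2 : 𝓞 F) ∉ P.asIdeal := fun h' => h (P.asIdeal.mul_mem_right _ h')
  have hl := und_lies hv
  have : P.asIdeal.IsMaximal := P.isPrime.isMaximal P.ne_bot
  have : v.asIdeal.IsMaximal := v.isPrime.isMaximal v.ne_bot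
  have i1 : Finite (𝓞 F ⧸ P.asIdeal) := Ideal.finiteQuotientOfFreeOfNeBot P.asIdeal P.ne_bot
  have i2 : Finite (𝓞 F' ⧸ v.asIdeal) := Ideal.finiteQuotientOfFreeOfNeBot v.asIdeal v.ne_bot
  let _ := Ideal.Quotient.field P.asIdeal
  let _ := Ideal.Quotient.field v.asIdeal
  let _ := Fintype.ofFinite (𝓞 F ⧸ P.asIdeal)
  let _ := Fintype.ofFinite (𝓞 F' ⧸ v.asIdeal)
  have hk : ringChar (𝓞 F ⧸ P.asIdeal) ≠ 2 :=
    res_char h2P (fun x => Ideal.Quotient.eq_zero_iff_mem) (map_ofNat _ 2).symm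
  have hδ : (Ideal.Quotient.mk P.asIdeal δ : 𝓞 F ⧸ P.asIdeal) ≠ 0 := by
    rw [Ne, Ideal.Quotient.eq_zero_iff_mem]
    exact fun h5 => h (P.asIdeal.mul_mem_left _ h5)
  have h5 := cn_ext (k' := 𝓞 F' ⧸ v.asIdeal) hk hδ
  have hc : ∀ {L : Type} [Field L] [NumberField L] (Q : HeightOneSpectrum (𝓞 L)),
      Nat.card (𝓞 L ⧸ Q.asIdeal) = nm Q := by
    intro L _ _ Q
    show _ = Ideal.absNorm Q.asIdeal
    rw [Ideal.absNorm_apply, Submodule.cardQuot_apply]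
  rw [← Nat.card_eq_fintype_card, ← Nat.card_eq_fintype_card, hc, hc] at h5
  have hff : Module.finrank (𝓞 F ⧸ P.asIdeal) (𝓞 F' ⧸ v.asIdeal) = ff P v := by
    unfold ff
    rw [Ideal.inertiaDeg'_algebraMap]
  rw [hff] at h5
  rw [h1, h3]
  exact h5

/-- the twist by a square -/
lemma aV_square {P : HeightOneSpectrum (𝓞 F)} {δ d c : 𝓞 F} (h : (2 : 𝓞 F) * δ ∉ P.asIdeal)
    (hd : d ∉ P.asIdeal) (hc : d - c ^ 2 ∈ P.asIdeal) :
    aV (q4 ((δ * d ^ 2 : 𝓞 F) : F)) P = aV (q4 (δ : F)) P ∧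
      eV (q4 ((δ * d ^ 2 : 𝓞 F) : F)) P = eV (q4 (δ : F)) P := by
  have h' : (2 : 𝓞 F) * (δ * d ^ 2) ∉ P.asIdeal := by
    intro h1
    rw [← mul_assoc] at h1
    rcases P.isPrime.mem_or_mem h1 with h2 | h2
    · exact h h2
    · exact hd (P.isPrime.mem_of_pow_mem 2 h2)
  obtain ⟨h1, h2⟩ := good_place h
  obtain ⟨h3, h4⟩ := good_place h'
  refine ⟨?_, by rw [h4, h2]⟩
  rw [h1, h3]
  congr 2
  have : P.asIdeal.IsMaximal := P.isPrime.isMaximal P.ne_bot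
  have i1 : Finite (𝓞 F ⧸ P.asIdeal) := Ideal.finiteQuotientOfFreeOfNeBot P.asIdeal P.ne_bot
  let _ := Ideal.Quotient.field P.asIdeal
  let _ := Fintype.ofFinite (𝓞 F ⧸ P.asIdeal)
  have hc0 : (Ideal.Quotient.mk P.asIdeal c : 𝓞 F ⧸ P.asIdeal) ≠ 0 := by
    rw [Ne, Ideal.Quotient.eq_zero_iff_mem]
    intro h5
    apply hd
    have h6 := P.asIdeal.add_mem hc (P.asIdeal.mul_mem_right c h5)
    have e : d - c ^ 2 + c * c = d := by ring
    rwa [e] at h6
  have h5 := cn_fourth (Ideal.Quotient.mk P.asIdeal δ) hc0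
  have e1 : Ideal.Quotient.mk P.asIdeal (δ * d ^ 2) =
      Ideal.Quotient.mk P.asIdeal δ * (Ideal.Quotient.mk P.asIdeal c) ^ 4 := by
    have h6 : Ideal.Quotient.mk P.asIdeal d = (Ideal.Quotient.mk P.asIdeal c) ^ 2 := by
      rw [← map_pow, Ideal.Quotient.eq]
      exact hc
    rw [map_mul, map_pow, h6, ← pow_mul]
  rw [e1]
  exact_mod_cast h5

/-- the twist by a nonsquare -/
lemma aV_nonsquare {P : HeightOneSpectrum (𝓞 F)} {δ d : 𝓞 F} (h : (2 : 𝓞 F) * δ ∉ P.asIdeal)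
    (hd : ∀ c : 𝓞 F, d - c ^ 2 ∉ P.asIdeal) :
    aV (q4 ((δ * d ^ 2 : 𝓞 F) : F)) P = -aV (q4 (δ : F)) P ∧
      eV (q4 ((δ * d ^ 2 : 𝓞 F) : F)) P = eV (q4 (δ : F)) P := by
  have hd0 : d ∉ P.asIdeal := by
    have := hd 0
    rwa [zero_pow two_ne_zero, sub_zero] at this
  have h' : (2 : 𝓞 F) * (δ * d ^ 2) ∉ P.asIdeal := by
    intro h1
    rw [← mul_assoc] at h1
    rcases P.isPrime.mem_or_mem h1 with h2 | h2
    · exact h h2
    · exact hd0 (P.isPrime.mem_of_pow_mem 2 h2)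
  obtain ⟨h1, h2⟩ := good_place h
  obtain ⟨h3, h4⟩ := good_place h'
  refine ⟨?_, by rw [h4, h2]⟩
  rw [h1, h3]
  have h2P : (2 : 𝓞 F) ∉ P.asIdeal := fun h' => h (P.asIdeal.mul_mem_right _ h')
  have : P.asIdeal.IsMaximal := P.isPrime.isMaximal P.ne_bot
  have i1 : Finite (𝓞 F ⧸ P.asIdeal) := Ideal.finiteQuotientOfFreeOfNeBot P.asIdeal P.ne_bot
  let _ := Ideal.Quotient.field P.asIdeal
  let _ := Fintype.ofFinite (𝓞 F ⧸ P.asIdeal)
  have hk : ringChar (𝓞 F ⧸ P.asIdeal) ≠ 2 :=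
    res_char h2P (fun x => Ideal.Quotient.eq_zero_iff_mem) (map_ofNat _ 2).symm
  have hns : ¬ IsSquare (Ideal.Quotient.mk P.asIdeal d) := by
    rintro ⟨y, hy⟩
    obtain ⟨c, rfl⟩ := Ideal.Quotient.mk_surjective y
    apply hd c
    rw [← Ideal.Quotient.eq, map_pow, sq]
    exact hy
  have h5 := cn_twist hk (Ideal.Quotient.mk P.asIdeal δ) hns
  have hc : Nat.card (𝓞 F ⧸ P.asIdeal) = nm P := by
    show _ = Ideal.absNorm P.asIdeal
    rw [Ideal.absNorm_apply, Submodule.cardQuot_apply]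
  rw [← Nat.card_eq_fintype_card, hc] at h5
  rw [map_mul, map_pow]
  exact h5

end place

end Pool.Agent.L7h3.MQ
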