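import Pool.Agent.L7h3.MQ.Lc
import Pool.Agent.L7h3.MQ.Ad

/-!
# The curves `y² = x³ + (∏ π_i ^ e_i) x` over the Gaussian field: L-series and points
-/

set_option autoImplicit false
set_option linter.unusedSectionVars false

open NumberField IsDedekindDomain

namespace Pool.Agent.L7h3.MQ

open scoped Classical
open WeierstrassCurve
open Pool.Agent.Y699
open Pool.Agent.W189.NF (aV eV)
open Pool.Agent.H921R2.TatePole (nm two_le_nm below)
open H385 (ZI RQ im1 nrm)
open Pool.Agent.W164.RC (tc_mul tc_star two2 prim_iff_dvd unit_norm unit_cases Ip Ip_spec)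
open Pool.Agent.H304R3.HK (tc HC LH)
open Pool.Agent.H304R2.EC.A1 (prim prim_mul prim_cancel prim_one prim_norm_odd prim_star eq_one_of_prim
  norm_def' re_mul' im_mul' eq_of_dvd prim_ne_zero exists_prim)
open Pool.Agent.Y696 (HBd LSeries_hasProd')
open Pool.Agent.Y715.Z

variable {K : Type} [Field K] [NumberField K]

variable {ι : Type} [DecidableEq ι] {pr : ι → ZI}

lemma DE_int {B : ZI} (hre : B.re % 8 = 3) (him : B.im % 4 = 2) {R : Type*} [CommRing R]
    (f : ZI →+* R) : ∃ a b : ℤ, f B = 3 + 8 * (a : R) + (2 + 4 * (b : R)) * f im1 := by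
  refine ⟨B.re / 8, B.im / 4, ?_⟩
  have h : B = 3 + 8 * ((B.re / 8 : ℤ) : ZI) + (2 + 4 * ((B.im / 4 : ℤ) : ZI)) * im1 := by
    have e3 : (3 : ZI) = ((3 : ℤ) : ZI) := by norm_num
    have e8 : (8 : ZI) = ((8 : ℤ) : ZI) := by norm_num
    have e2 : (2 : ZI) = ((2 : ℤ) : ZI) := by norm_num
    have e4 : (4 : ZI) = ((4 : ℤ) : ZI) := by norm_num
    rw [e3, e8, e2, e4, ← Int.cast_mul, ← Int.cast_add, ← Int.cast_mul, ← Int.cast_add]
    ext
    · rw [Zsqrtd.re_add, re_mul', Zsqrtd.re_intCast, Zsqrtd.re_intCast, Zsqrtd.im_intCast]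
      simp only [im1]
      omega
    · rw [Zsqrtd.im_add, im_mul', Zsqrtd.re_intCast, Zsqrtd.im_intCast, Zsqrtd.im_intCast]
      simp only [im1]
      omega
  conv_lhs => rw [h]
  simp only [map_add, map_mul, map_ofNat, map_intCast]

variable (e : ZI ≃+* 𝓞 K)

lemma XXE_zero (hp : PF pr) {V : Finset ι} {ex : ι → ℕ} (he : ∀ i ∈ V, ex i % 2 = 1)
    (hW : Wt pr V ex % 4 = 3) {z : ZI} (h : z = pi1 ∨ ∃ i ∈ V, pr i ∣ z) : XX4 hp V ex z = 0 := by
  by_contra hne
  have h4 := (cop_cn4 hp V z).1 (((XX4_HC hp hW (fun i hi => by have := he i hi; omega)).supp z).1 hne)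
  rcases h with h | ⟨i, hi, h⟩
  · rw [h] at h4
    exact absurd h4.1 (by decide)
  · exact h4.2 i hi h

/-- the local factors -/
theorem locE (hp : PF pr) {V : Finset ι} {ex : ι → ℕ} (he : ∀ i ∈ V, ex i % 2 = 1)
    (hW : Wt pr V ex % 4 = 3) (v : HeightOneSpectrum (𝓞 K)) (s : ℂ) :
    HBd (aV (q4 (em0 e (DE pr V ex))) v) (eV (q4 (em0 e (DE pr V ex))) v) (nm v) ∧
      (1 - (aV (q4 (em0 e (DE pr V ex))) v : ℂ) * (nm v : ℂ) ^ (-s) +
        (eV (q4 (em0 e (DE pr V ex))) v : ℂ) * ((nm v : ℂ) ^ (-s)) ^ 2)⁻¹ =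
      g1 (XX4 hp V ex) e s v * g2 (XX4 hp V ex) e s v := by
  have hsp := pg_span e v
  set z := pg e v with hz
  have hzp : Prime z := pg_prime e v
  have hodd : (below v : ℕ) ≠ 2 → z ∈ Ip (below v) → PP z := fun h1 h2 =>
    ⟨(Ip_spec (below v).2 h2).2.1, (Ip_spec (below v).2 h2).1⟩
  have hmem0 : em0 e (DE pr V ex) = ((e (DE pr V ex) : 𝓞 K) : K) := rfl
  have hzero : (aV (q4 (em0 e (DE pr V ex))) v = 0 ∧ eV (q4 (em0 e (DE pr V ex))) v = 0) →
      XX4 hp V ex z = 0 → HBd (aV (q4 (em0 e (DE pr V ex))) v) (eV (q4 (em0 e (DE pr V ex))) v) (nm v) ∧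
      (1 - (aV (q4 (em0 e (DE pr V ex))) v : ℂ) * (nm v : ℂ) ^ (-s) +
        (eV (q4 (em0 e (DE pr V ex))) v : ℂ) * ((nm v : ℂ) ^ (-s)) ^ 2)⁻¹ =
      g1 (XX4 hp V ex) e s v * g2 (XX4 hp V ex) e s v := by
    intro h0 hX
    refine ⟨Or.inl h0, ?_⟩
    unfold g1 g2
    rw [h0.1, h0.2, ← hz, hX]
    simp
  rcases pg_cases e v with ⟨h1, h2⟩ | ⟨h1, h2⟩
  · -- the place above two
    refine hzero ?_ (XXE_zero hp he hW (Or.inl h2))
    obtain ⟨hre, him⟩ := DE_comp hp hW
    obtain ⟨a, b, hab⟩ := DE_int hre him (e : ZI →+* 𝓞 K)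
    have hv : v = plc e pi1_prime := by
      apply HeightOneSpectrum.ext
      rw [hsp, hz, h2]
      rfl
    rw [hmem0]
    refine bad_two (I := e im1) ?_ ?_ (a := a) (b := b) hab
    · rw [← map_pow]
      have : (im1 : ZI) ^ 2 = -1 := by decide
      rw [this, map_neg, map_one]
    · rw [hv]; exact val_two1 e
  · have hPP := hodd h1 h2
    by_cases hb : z ∣ DE pr V ex
    · -- the places of the primes `π_i`
      obtain ⟨i, hi, hzi⟩ : ∃ i ∈ V, z = pr i := by
        rw [dvd_DE_iff hp he hzp] at hb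
        unfold DD at hb
        obtain ⟨i, hi, hzi⟩ := (hzp.dvd_finsetProd_iff _).1 hb
        exact ⟨i, hi, hPP.eq_of_dvd (hp.pp i) hzi⟩
      refine hzero ?_ (XXE_zero hp he hW (Or.inr ⟨i, hi, by rw [hzi]⟩))
      have hv : v = plc e hzp := by
        apply HeightOneSpectrum.ext
        rw [hsp]
        rfl
      have h2' : v.valuation K 2 = 1 := by
        have h3 := val_one (K := K) e hzp (not_dvd_two hPP)
        rw [map_ofNat] at h3
        rw [hv]; exact h3
      refine bad_odd (m := (ex i : ℤ)) h2' ?_ (by have := he i hi; omega)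
      have h3 : DE pr V ex = z ^ ex i * DE pr (V.erase i) ex := by
        unfold DE
        rw [hzi]
        exact (Finset.mul_prod_erase V (fun i => pr i ^ ex i) hi).symm
      have h4 : ¬ z ∣ DE pr (V.erase i) ex := by
        intro h
        unfold DE at h
        obtain ⟨j, hj, hzj⟩ := (hzp.dvd_finsetProd_iff _).1 h
        have h5 := hPP.eq_of_dvd (hp.pp j) (hzp.dvd_of_dvd_pow hzj)
        rw [hzi] at h5
        exact (Finset.mem_erase.1 hj).1 (hp.inj h5).symm
      rw [hv, h3, map_mul, map_mul, val_one e hzp h4, mul_one, map_pow, map_pow, val_z,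
        ← WithZero.exp_nsmul]
      congr 1
      simp
    · -- the good places
      have hgd : (2 : 𝓞 K) * e (DE pr V ex) ∉ v.asIdeal := by
        intro h
        have h3 : (2 : 𝓞 K) * e (DE pr V ex) = e (2 * DE pr V ex) := by rw [map_mul, map_ofNat]
        rw [h3, mem_iff e hsp] at h
        rcases hzp.dvd_or_dvd h with h4 | h4
        · exact not_dvd_two hPP h4
        · exact hb h4
      obtain ⟨ha, hE⟩ := good_place hgd
      rw [hmem0, ha, hE]
      have hne : ∀ i ∈ V, z ≠ pr i := by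
        intro i hi h
        apply hb
        rw [dvd_DE_iff hp he hzp, h]
        exact dvd_DD hi
      have hrec := recE (JJ_of e) hp (e := ex) (by omega) hPP hne
      have h3 := congrArg tc (cnt4_good e hPP hsp hb)
      rw [tc_int, tc_add] at h3
      have hnd : ¬ z ∣ -(DE pr V ex) := fun h => hb ((dvd_neg).1 h)
      have hnm : nm v = Ideal.absNorm v.asIdeal := rfl
      set q : ZI := Pool.Agent.Y699.q4 z (-(DE pr V ex)) with hq
      have h4 : tc q * (starRingEnd ℂ) (tc q) = 1 := by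
        rw [← tc_star, ← tc_mul, unit_star_mul (q4_norm hPP hnd), tc_one]
      have h5 : tc z * tc (star z) = ((Ideal.absNorm v.asIdeal : ℕ) : ℂ) := by
        rw [norm_pg e hsp, ← tc_mul, ← Zsqrtd.norm_eq_mul_conj, ← nrm_cast]
        unfold tc
        simp
      have h7 : tc (star q) = (starRingEnd ℂ) (tc q) := tc_star _
      constructor
      · refine Or.inr ⟨tc (star q * z), ?_, ?_, ?_⟩
        · rw [hnm, h3, ← tc_star, star_mul, star_star, mul_comm (star z) q]
        · rw [hnm, ← tc_star, star_mul, star_star, tc_mul, tc_mul, tc_star q]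
          push_cast
          linear_combination (-((Ideal.absNorm v.asIdeal : ℕ) : ℂ)) * h4 -
            (tc q * (starRingEnd ℂ) (tc q)) * h5
        · rw [hnm, ← tc_star, star_mul, star_star, tc_mul, tc_mul, tc_star q]
          linear_combination (((Ideal.absNorm v.asIdeal : ℕ) : ℂ)) * h4 +
            (tc q * (starRingEnd ℂ) (tc q)) * h5
      · unfold g1 g2
        rw [← hz, XX4_prim hp V ex hPP.prm, ← hrec, ← mul_inv, Complex.conj_conj]
        congr 1
        rw [hnm, h3, tc_mul, tc_mul, h7]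
        push_cast
        linear_combination (-(((Ideal.absNorm v.asIdeal : ℕ) : ℂ) ^ (-s)) ^ 2) * h5 -
          (tc z * tc (star z)) * (((Ideal.absNorm v.asIdeal : ℕ) : ℂ) ^ (-s)) ^ 2 * h4

lemma XXE_pi1 (hp : PF pr) (V : Finset ι) (ex : ι → ℕ) : XX4 hp V ex pi1 = 0 := by
  rw [XX4_apply, un_even (by decide), tc_zero, zero_mul]

/-- what we prove for the curve `y² = x³ + δ x` over a number field -/
def Concl {K : Type} [Field K] [NumberField K] (δ : K) : Prop :=
  Finite (q4 δ).toAffine.Point ∧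
  (∀ v : HeightOneSpectrum (𝓞 K), HBd (aV (q4 δ) v) (eV (q4 δ) v) (nm v)) ∧
  ∃ L : ℂ → ℂ, Differentiable ℂ L ∧ L 1 ≠ 0 ∧ ∀ s : ℂ, 3 / 2 < s.re → L s = (q4 δ).LSeries s

variable [Fintype ι]

/-- the L-series over the Gaussian field -/
theorem baseL (hp : PF pr) {V : Finset ι} {ex : ι → ℕ} (he : ∀ i ∈ V, ex i % 2 = 1)
    (hW : Wt pr V ex % 4 = 3)
    (hker : ∀ z : ι → ZMod 2, (∀ v ∈ V, ∑ u ∈ V, em pr u v * (z u + z v) = 0) →
      ∀ u ∈ V, ∀ v ∈ V, z u = z v) :
    (∀ v : HeightOneSpectrum (𝓞 K), HBd (aV (q4 (em0 e (DE pr V ex))) v)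
      (eV (q4 (em0 e (DE pr V ex))) v) (nm v)) ∧
    ∃ L : ℂ → ℂ, Differentiable ℂ L ∧ L 1 ≠ 0 ∧
      ∀ s : ℂ, 3 / 2 < s.re → L s = (q4 (em0 e (DE pr V ex))).LSeries s := by
  have H := XX4_HC hp hW (fun i hi => by have := he i hi; omega)
  refine ⟨fun v => (locE e hp he hW v 2).1, LG (XX4 hp V ex), LG_diff H,
    LG_one (LH_neE hp he hW hker), fun s hs => ?_⟩
  obtain ⟨-, h2⟩ := LSeries_hasProd' (q4 (em0 e (DE pr V ex))) (fun v => (locE e hp he hW v s).1) hs
  have h3 := (g1_hasProd H (XXE_pi1 hp V ex) e hs).mul (g2_hasProd H (XXE_pi1 hp V ex) e hs)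
  exact h3.unique (h2.congr_fun fun v => ((locE e hp he hW v s).2).symm)

/-- the points over the Gaussian field -/
theorem basePts (hp : PF pr) {V : Finset ι} {ex : ι → ℕ} (he : ∀ i ∈ V, ex i % 2 = 1)
    (hW : Wt pr V ex % 4 = 3) (hw : ∑ i ∈ V, wt pr i = 1)
    (hker : ∀ z : ι → ZMod 2, (∀ v ∈ V, ∑ u ∈ V, em pr u v * (z u + z v) = 0) →
      ∀ u ∈ V, ∀ v ∈ V, z u = z v) {x y : K}
    (hxy : y ^ 2 = x ^ 3 + em0 e (DE pr V ex) * x) : y = 0 := by
  let _ : Algebra ZI K := ((algebraMap (𝓞 K) K).comp (e : ZI →+* 𝓞 K)).toAlgebra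
  have _ : IsFractionRing ZI K := IsFractionRing.of_ringEquiv_left e (fun _ => rfl)
  obtain ⟨hre, him⟩ := DE_comp hp hW
  have hDE := DE_eq (pr := pr) he
  rw [hDE] at hre him
  have hprim := DE_prim hp V ex
  rw [hDE] at hprim
  refine no_pointsE (F := K) hp hw (TE_ne hp V ex) ?_ hprim hre him hker (x := x) ?_
  · intro ρ hρ h
    unfold TE at h
    obtain ⟨i, hi, h1⟩ := (hρ.dvd_finsetProd_iff _).1 h
    exact (hρ.dvd_of_dvd_pow h1).trans (dvd_DD hi)
  · rw [← hDE]
    exact hxy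

end Pool.Agent.L7h3.MQ
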