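import Pool.Agent.L7h3.MQ.Ct
import Pool.Agent.L7h3.MQ.Kb
import Pool.Agent.Y696.Hss

/-!
# The Euler product over a quadratic extension
-/

set_option autoImplicit false
set_option linter.unusedSectionVars false

open NumberField IsDedekindDomain

namespace Pool.Agent.L7h3.MQ

open scoped Classical
open Pool.Agent.W189.NF (aV eV)
open Pool.Agent.H921R2.TatePole (nm two_le_nm)
open Pool.Agent.Y696 (HBd LSeries_hasProd')
open Pool.Agent.Y715.Z (q4)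
open Pool.Agent.H82R3.EK (luc)

/-- the Euler factor -/
noncomputable def Fac {K : Type} [Field K] [NumberField K] (E : WeierstrassCurve K) (s : ℂ)
    (v : HeightOneSpectrum (𝓞 K)) : ℂ :=
  (1 - (aV E v : ℂ) * (nm v : ℂ) ^ (-s) + (eV E v : ℂ) * ((nm v : ℂ) ^ (-s)) ^ 2)⁻¹

lemma Fac_zero {K : Type} [Field K] [NumberField K] {E : WeierstrassCurve K} {s : ℂ}
    {v : HeightOneSpectrum (𝓞 K)} (h : aV E v = 0 ∧ eV E v = 0) : Fac E s v = 1 := by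
  unfold Fac
  rw [h.1, h.2]
  simp

variable {F F' : Type} [Field F] [NumberField F] [Field F'] [NumberField F'] [Algebra F F']

lemma fib_good (h2 : Module.finrank F F' = 2) (σ : F' ≃ₐ[F] F') {θ : 𝓞 F'} {d δ : 𝓞 F}
    (hθ : θ ^ 2 = algebraMap (𝓞 F) (𝓞 F') d) (hσ : σ (θ : F') = -(θ : F'))
    {P : HeightOneSpectrum (𝓞 F)} (hP : (2 : 𝓞 F) * δ * d ∉ P.asIdeal) (s : ℂ) :
    ∏ v : {v : HeightOneSpectrum (𝓞 F') // und v = P},
      Fac (q4 ((algebraMap (𝓞 F) (𝓞 F') δ : 𝓞 F') : F')) s v.1 =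
      Fac (q4 (δ : F)) s P * Fac (q4 ((δ * d ^ 2 : 𝓞 F) : F)) s P := by
  have hδ : (2 : 𝓞 F) * δ ∉ P.asIdeal := fun h => hP (P.asIdeal.mul_mem_right _ h)
  have hd : d ∉ P.asIdeal := fun h => hP (P.asIdeal.mul_mem_left _ h)
  have hP2 : (2 : 𝓞 F) ∉ P.asIdeal := fun h => hδ (P.asIdeal.mul_mem_right _ h)
  have hσ' : intAut σ θ = -θ := by
    apply RingOfIntegers.ext
    rw [intAut_coe, hσ]
    rfl
  have hnn : ∀ v : HeightOneSpectrum (𝓞 F'), und v = P → θ ∉ v.asIdeal := by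
    intro v hv h
    apply hd
    rw [← hv, mem_und, ← hθ]
    exact Ideal.pow_mem_of_mem _ h 2 (by norm_num)
  rcases split_cases h2 P with ⟨v1, v2, hne, hall, hef⟩ | ⟨v0, hall, hef⟩
  · have hv1 : und v1 = P := (hall v1).2 (Or.inl rfl)
    have hv2 : und v2 = P := (hall v2).2 (Or.inr rfl)
    have hfac : ∀ v : HeightOneSpectrum (𝓞 F'), und v = P →
        Fac (q4 ((algebraMap (𝓞 F) (𝓞 F') δ : 𝓞 F') : F')) s v = Fac (q4 (δ : F)) s P := by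
      intro v hv
      obtain ⟨h3, h4⟩ := aV_above hv hδ
      have hf := (hef v hv).2
      unfold Fac
      rw [h3, h4, hf, nm_pow hv, hf, pow_one, (good_place hδ).2]
      rfl
    have hprod : ∏ v : {v : HeightOneSpectrum (𝓞 F') // und v = P},
        Fac (q4 ((algebraMap (𝓞 F) (𝓞 F') δ : 𝓞 F') : F')) s v.1 =
        ∏ v : {v : HeightOneSpectrum (𝓞 F') // und v = P}, Fac (q4 (δ : F)) s P :=
      Finset.prod_congr rfl fun v _ => hfac v.1 v.2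
    rw [hprod, Finset.prod_const, Finset.card_univ]
    have hcard : Fintype.card {v : HeightOneSpectrum (𝓞 F') // und v = P} = 2 := by
      have h5 : ({v | und v = P} : Set (HeightOneSpectrum (𝓞 F'))) = {v1, v2} := by
        ext v
        rw [Set.mem_setOf_eq, hall]
        rfl
      rw [← Nat.card_eq_fintype_card]
      have h6 : Nat.card ({v | und v = P} : Set (HeightOneSpectrum (𝓞 F'))) = 2 := by
        rw [h5, Nat.card_coe_set_eq, Set.ncard_pair hne]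
      exact h6
    rw [hcard]
    obtain ⟨c, hc⟩ := exists_lift hv1 (hef v1 hv1).2 θ
    have hc2 : d - c ^ 2 ∈ P.asIdeal := by
      rw [← hv1, mem_und, map_sub, map_pow, ← hθ]
      have e1 : θ ^ 2 - (algebraMap (𝓞 F) (𝓞 F') c) ^ 2 =
        (θ - algebraMap (𝓞 F) (𝓞 F') c) * (θ + algebraMap (𝓞 F) (𝓞 F') c) := by ring
      rw [e1]
      exact v1.asIdeal.mul_mem_right _ hc
    obtain ⟨h5, h6⟩ := aV_square hδ hd hc2
    have h7 : Fac (q4 ((δ * d ^ 2 : 𝓞 F) : F)) s P = Fac (q4 (δ : F)) s P := by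
      unfold Fac
      rw [h5, h6]
    rw [h7]
    ring
  · have hv0 : und v0 = P := (hall v0).2 rfl
    have hun : ee P v0 = 1 := by
      refine unram_of h2 σ hv0 (x := θ) ?_
      rw [hσ']
      intro h
      have e1 : -θ - θ = -(algebraMap (𝓞 F) (𝓞 F') 2 * θ) := by
        rw [map_ofNat]; ring
      rw [e1, neg_mem_iff] at h
      rcases v0.isPrime.mem_or_mem h with h3 | h3
      · apply hP2
        rw [← hv0, mem_und]
        exact h3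
      · exact hnn v0 hv0 h3
    have hf : ff P v0 = 2 := by
      rw [hun, one_mul] at hef
      exact hef
    have hns : ∀ c : 𝓞 F, d - c ^ 2 ∉ P.asIdeal := by
      intro c hc
      rw [← hv0, mem_und, map_sub, map_pow, ← hθ] at hc
      have e1 : θ ^ 2 - (algebraMap (𝓞 F) (𝓞 F') c) ^ 2 =
        (θ - algebraMap (𝓞 F) (𝓞 F') c) * (θ + algebraMap (𝓞 F) (𝓞 F') c) := by ring
      rw [e1] at hc
      have h2θ : ∀ x : 𝓞 F', x = 2 * θ → x ∉ v0.asIdeal := by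
        rintro x rfl hx
        rcases v0.isPrime.mem_or_mem hx with h3 | h3
        · apply hP2
          rw [← hv0, mem_und, map_ofNat]
          exact h3
        · exact hnn v0 hv0 h3
      rcases v0.isPrime.mem_or_mem hc with h3 | h3
      · have h4 := stable hall σ h3
        rw [map_sub, hσ', intAut_base] at h4
        exact h2θ _ (by ring) (v0.asIdeal.sub_mem h3 h4)
      · have h4 := stable hall σ h3
        rw [map_add, hσ', intAut_base] at h4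
        exact h2θ _ (by ring) (v0.asIdeal.sub_mem h3 h4)
    have hprod : ∏ v : {v : HeightOneSpectrum (𝓞 F') // und v = P},
        Fac (q4 ((algebraMap (𝓞 F) (𝓞 F') δ : 𝓞 F') : F')) s v.1 =
        Fac (q4 ((algebraMap (𝓞 F) (𝓞 F') δ : 𝓞 F') : F')) s v0 := by
      rw [Fintype.prod_eq_single (⟨v0, hv0⟩ : {v : HeightOneSpectrum (𝓞 F') // und v = P})]
      intro v hv
      exact absurd (Subtype.ext ((hall v.1).1 v.2)) hv
    rw [hprod]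
    obtain ⟨h3, h4⟩ := aV_above hv0 hδ
    obtain ⟨h5, h6⟩ := aV_nonsquare hδ hns
    unfold Fac
    rw [h3, h4, h5, h6, hf, nm_pow hv0, hf, (good_place hδ).2]
    have e2 : (((nm P ^ 2 : ℕ) : ℂ)) ^ (-s) = ((nm P : ℂ) ^ (-s)) ^ 2 := by
      rw [Nat.cast_pow, ← Complex.natCast_cpow_natCast_mul, ← Complex.cpow_nat_mul]
    rw [e2, ← mul_inv]
    congr 1
    simp only [luc]
    push_cast
    ring

/-- **the L-series over a quadratic extension** -/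
theorem euler_step (h2 : Module.finrank F F' = 2) (σ : F' ≃ₐ[F] F') {θ : 𝓞 F'} {d δ : 𝓞 F}
    (hθ : θ ^ 2 = algebraMap (𝓞 F) (𝓞 F') d) (hσ : σ (θ : F') = -(θ : F'))
    (hb1 : ∀ P : HeightOneSpectrum (𝓞 F), (2 : 𝓞 F) * δ * d ∈ P.asIdeal →
      aV (q4 (δ : F)) P = 0 ∧ eV (q4 (δ : F)) P = 0)
    (hb2 : ∀ P : HeightOneSpectrum (𝓞 F), (2 : 𝓞 F) * δ * d ∈ P.asIdeal →
      aV (q4 ((δ * d ^ 2 : 𝓞 F) : F)) P = 0 ∧ eV (q4 ((δ * d ^ 2 : 𝓞 F) : F)) P = 0)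
    (hb3 : ∀ v : HeightOneSpectrum (𝓞 F'), algebraMap (𝓞 F) (𝓞 F') (2 * δ * d) ∈ v.asIdeal →
      aV (q4 ((algebraMap (𝓞 F) (𝓞 F') δ : 𝓞 F') : F')) v = 0 ∧
        eV (q4 ((algebraMap (𝓞 F) (𝓞 F') δ : 𝓞 F') : F')) v = 0)
    (hB1 : ∀ v : HeightOneSpectrum (𝓞 F), HBd (aV (q4 (δ : F)) v) (eV (q4 (δ : F)) v) (nm v))
    (hB2 : ∀ v : HeightOneSpectrum (𝓞 F), HBd (aV (q4 ((δ * d ^ 2 : 𝓞 F) : F)) v)
      (eV (q4 ((δ * d ^ 2 : 𝓞 F) : F)) v) (nm v)) :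
    (∀ v : HeightOneSpectrum (𝓞 F'),
      HBd (aV (q4 ((algebraMap (𝓞 F) (𝓞 F') δ : 𝓞 F') : F')) v)
        (eV (q4 ((algebraMap (𝓞 F) (𝓞 F') δ : 𝓞 F') : F')) v) (nm v)) ∧
    ∀ s : ℂ, 3 / 2 < s.re →
      (q4 ((algebraMap (𝓞 F) (𝓞 F') δ : 𝓞 F') : F')).LSeries s =
        (q4 (δ : F)).LSeries s * (q4 ((δ * d ^ 2 : 𝓞 F) : F)).LSeries s := by
  have hB : ∀ v : HeightOneSpectrum (𝓞 F'),
      HBd (aV (q4 ((algebraMap (𝓞 F) (𝓞 F') δ : 𝓞 F') : F')) v)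
        (eV (q4 ((algebraMap (𝓞 F) (𝓞 F') δ : 𝓞 F') : F')) v) (nm v) := by
    intro v
    by_cases h : algebraMap (𝓞 F) (𝓞 F') (2 * δ * d) ∈ v.asIdeal
    · exact Or.inl (hb3 v h)
    · refine good_hbd fun h' => h ?_
      rw [map_mul, map_mul, map_ofNat]
      exact v.asIdeal.mul_mem_right _ h'
  refine ⟨hB, fun s hs => ?_⟩
  have h3 : HasProd (fun v : HeightOneSpectrum (𝓞 F') =>
      Fac (q4 ((algebraMap (𝓞 F) (𝓞 F') δ : 𝓞 F') : F')) s v)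
      ((q4 ((algebraMap (𝓞 F) (𝓞 F') δ : 𝓞 F') : F')).LSeries s) :=
    (LSeries_hasProd' (q4 ((algebraMap (𝓞 F) (𝓞 F') δ : 𝓞 F') : F')) hB hs).2
  have h4 := (Equiv.sigmaFiberEquiv (und (F := F) (F' := F'))).hasProd_iff.2 h3
  have h5 : HasProd (fun P : HeightOneSpectrum (𝓞 F) =>
      ∏ v : {v : HeightOneSpectrum (𝓞 F') // und v = P},
        Fac (q4 ((algebraMap (𝓞 F) (𝓞 F') δ : 𝓞 F') : F')) s v.1)
      ((q4 ((algebraMap (𝓞 F) (𝓞 F') δ : 𝓞 F') : F')).LSeries s) := by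
    refine h4.sigma fun P => ?_
    exact hasProd_fintype _ (.unconditional _)
  have h6 : HasProd (fun v : HeightOneSpectrum (𝓞 F) => Fac (q4 (δ : F)) s v)
      ((q4 (δ : F)).LSeries s) := (LSeries_hasProd' (q4 (δ : F)) hB1 hs).2
  have h7 : HasProd (fun v : HeightOneSpectrum (𝓞 F) => Fac (q4 ((δ * d ^ 2 : 𝓞 F) : F)) s v)
      ((q4 ((δ * d ^ 2 : 𝓞 F) : F)).LSeries s) :=
    (LSeries_hasProd' (q4 ((δ * d ^ 2 : 𝓞 F) : F)) hB2 hs).2
  refine h5.unique ((h6.mul h7).congr_fun fun P => ?_)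
  by_cases hP : (2 : 𝓞 F) * δ * d ∈ P.asIdeal
  · rw [Fac_zero (hb1 P hP), Fac_zero (hb2 P hP), one_mul]
    refine Finset.prod_eq_one fun v _ => Fac_zero (hb3 v.1 ?_)
    rw [← mem_und, v.2]
    exact hP
  · exact fib_good h2 σ hθ hσ hP s

/-- **the step** -/
theorem concl_step (h2 : Module.finrank F F' = 2) {θ : 𝓞 F'} {d δ : 𝓞 F}
    (hδ0 : δ ≠ 0) (hθ : θ ^ 2 = algebraMap (𝓞 F) (𝓞 F') d)
    (hn : (θ : F') ∉ Set.range (algebraMap F F'))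
    (hb1 : ∀ P : HeightOneSpectrum (𝓞 F), (2 : 𝓞 F) * δ * d ∈ P.asIdeal →
      aV (q4 (δ : F)) P = 0 ∧ eV (q4 (δ : F)) P = 0)
    (hb2 : ∀ P : HeightOneSpectrum (𝓞 F), (2 : 𝓞 F) * δ * d ∈ P.asIdeal →
      aV (q4 ((δ * d ^ 2 : 𝓞 F) : F)) P = 0 ∧ eV (q4 ((δ * d ^ 2 : 𝓞 F) : F)) P = 0)
    (hb3 : ∀ v : HeightOneSpectrum (𝓞 F'), algebraMap (𝓞 F) (𝓞 F') (2 * δ * d) ∈ v.asIdeal →
      aV (q4 ((algebraMap (𝓞 F) (𝓞 F') δ : 𝓞 F') : F')) v = 0 ∧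
        eV (q4 ((algebraMap (𝓞 F) (𝓞 F') δ : 𝓞 F') : F')) v = 0)
    (h3 : Concl (δ : F)) (h4 : Concl ((δ * d ^ 2 : 𝓞 F) : F)) :
    Concl ((algebraMap (𝓞 F) (𝓞 F') δ : 𝓞 F') : F') := by
  have hθ' : (θ : F') ^ 2 = algebraMap F F' (d : F) := by
    have h5 : ((θ ^ 2 : 𝓞 F') : F') = ((algebraMap (𝓞 F) (𝓞 F') d : 𝓞 F') : F') := by rw [hθ]
    exact h5
  obtain ⟨σ, hσ, -, -⟩ := quad_conj h2 hθ' hn
  obtain ⟨h5, h6⟩ := euler_step h2 σ hθ hσ hb1 hb2 hb3 h3.2.1 h4.2.1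
  refine ⟨?_, h5, ?_⟩
  · refine fin_step h2 hθ' hn (by exact_mod_cast hδ0) h3.1 ?_
    exact h4.1
  · obtain ⟨L1, a1, b1, c1⟩ := h3.2.2
    obtain ⟨L2, a2, b2, c2⟩ := h4.2.2
    refine ⟨fun s => L1 s * L2 s, a1.mul a2, mul_ne_zero b1 b2, fun s hs => ?_⟩
    show L1 s * L2 s = _
    rw [c1 s hs, c2 s hs]
    exact (h6 s hs).symm

end Pool.Agent.L7h3.MQ
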