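import Pool.Agent.L7h3.MQ.Ind
import Pool.Agent.Y699.R10

/-!
# The final assembly
-/

set_option autoImplicit false
set_option linter.unusedSectionVars false

open NumberField IsDedekindDomain

namespace Pool.Agent.L7h3.MQ

open scoped Classical
open Pool.Agent.Y699
open H385 (ZI RQ im1 nrm)
open Pool.Agent.H304R2.EC.A1 (prim prim_mul prim_cancel prim_one prim_norm_odd prim_star eq_one_of_prim
  norm_def' re_mul' im_mul' eq_of_dvd prim_ne_zero exists_prim)
open Pool.Agent.Y715.Z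

lemma one_mod_four {δ : ZI} (h : (4 : ZI) ∣ δ - 1) : prim δ ∧ δ.norm % 8 = 1 := by
  obtain ⟨k, hk⟩ := h
  have h1 : δ = 1 + ((4 : ℤ) : ZI) * k := by
    have e4 : (4 : ZI) = ((4 : ℤ) : ZI) := by norm_num
    rw [← e4, ← hk]; ring
  have hre : δ.re = 1 + 4 * k.re := by
    rw [h1, Zsqrtd.re_add, re_mul', Zsqrtd.re_intCast, Zsqrtd.im_intCast]
    simp
  have him : δ.im = 4 * k.im := by
    rw [h1, Zsqrtd.im_add, im_mul', Zsqrtd.re_intCast, Zsqrtd.im_intCast]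
    simp
  refine ⟨⟨by omega, by omega⟩, ?_⟩
  rw [norm_def', hre, him]
  have e1 : (1 + 4 * k.re) ^ 2 + (4 * k.im) ^ 2 = 1 + 8 * (k.re + 2 * k.re ^ 2 + 2 * k.im ^ 2) := by ring
  rw [e1]
  omega

lemma exists_S {D δ : ZI} (h : PS D) (hδ : prim δ) (hd : δ ∣ D) :
    ∃ S : Finset {π : ZI // π ∈ PD D}, DD (fam D) S = δ := by
  have hP : PS δ := ⟨hδ, h.sqf.squarefree_of_dvd hd⟩
  have hsub : PD δ ⊆ PD D := by
    intro π hπ
    rw [mem_PD hP.ne] at hπ
    rw [mem_PD h.ne]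
    exact ⟨hπ.1, hπ.2.trans hd⟩
  refine ⟨Finset.univ.filter (fun π => π.1 ∈ PD δ), ?_⟩
  have h1 : (∏ π ∈ PD δ, π) = δ := hP.prod
  unfold DD fam
  conv_rhs => rw [← h1]
  refine Finset.prod_bij (fun π _ => π.1) ?_ ?_ ?_ ?_
  · intro π hπ
    exact (Finset.mem_filter.1 hπ).2
  · intro a _ b _ hab
    exact Subtype.ext hab
  · intro b hb
    exact ⟨⟨b, hsub hb⟩, Finset.mem_filter.2 ⟨Finset.mem_univ _, hb⟩, rfl⟩
  · intro a _
    rfl

/-- **the criterion over multiquadratic extensions** -/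
theorem crit_multi {D : ZI} (hg : Good4 D) {K : Type} [Field K] [NumberField K] (e : ZI ≃+* 𝓞 K)
    {F : Type} [Field F] [NumberField F] [Algebra K F] (T : Finset F)
    (hT : ∀ t ∈ T, ∃ δ : ZI, δ ∣ D ∧ (4 : ZI) ∣ δ - 1 ∧ t ^ 2 = algebraMap K F ((e δ : 𝓞 K) : K))
    (htop : IntermediateField.adjoin K (T : Set F) = ⊤) :
    Concl (algebraMap K F ((e D : 𝓞 K) : K)) := by
  have hp := fam_PF hg.ps.ne
  have hG := tower (pr := fam D) (V := Finset.univ) e hp (wt_sum hg.ps hg.good.five)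
    (ker_of_good hg.good) T.card F T rfl (by
      intro t ht
      obtain ⟨δ, h1, h2, h3⟩ := hT t ht
      obtain ⟨h4, h5⟩ := one_mod_four h2
      obtain ⟨S, hS⟩ := exists_S hg.ps h4 h1
      exact ⟨S, Finset.subset_univ _, by rw [hS]; exact h5, by rw [hS]; exact h3⟩) htop
  have h6 := hG.2 (fun _ => 1) (fun _ _ => rfl) (by
    have := sum_wq hg
    unfold Wt
    simp only [one_mul]
    exact this)
  rw [DE_ones, hg.ps.DD] at h6
  exact h6

end Pool.Agent.L7h3.MQ
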