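import Pool.Agent.Y715.Z.Min

/-!
# Finiteness of the group of points in a quadratic extension
-/

set_option autoImplicit false
set_option linter.unusedSectionVars false

namespace Pool.Agent.L7h3.MQ

open WeierstrassCurve
open Pool.Agent.Y715.Z (q4 q4_Δ q4_map)

/-- the conjugation of a quadratic extension -/
theorem quad_conj {F F' : Type} [Field F] [CharZero F] [Field F'] [Algebra F F']
    (h2 : Module.finrank F F' = 2) {θ : F'} {d : F} (hθ : θ ^ 2 = algebraMap F F' d)
    (hn : θ ∉ Set.range (algebraMap F F')) :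
    ∃ σ : F' ≃ₐ[F] F', σ θ = -θ ∧ (∀ x, σ x = x → x ∈ Set.range (algebraMap F F')) ∧
      (∀ τ : F' ≃ₐ[F] F', τ = 1 ∨ τ = σ) := by
  have : Algebra.IsQuadraticExtension F F' := { finrank_eq_two' := h2 }
  have hfd : FiniteDimensional F F' := inferInstance
  have hg : IsGalois F F' := inferInstance
  have hcard : Nat.card (F' ≃ₐ[F] F') = 2 := by
    rw [IsGalois.card_aut_eq_finrank, h2]
  have hfin : Finite (F' ≃ₐ[F] F') := Nat.finite_of_card_ne_zero (by rw [hcard]; norm_num)
  obtain ⟨σ, hσ, hall⟩ : ∃ σ : F' ≃ₐ[F] F', σ ≠ 1 ∧ ∀ τ : F' ≃ₐ[F] F', τ = 1 ∨ τ = σ := by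
    obtain ⟨a, b, hab, h⟩ := Nat.card_eq_two_iff.1 hcard
    have h' : ∀ τ : F' ≃ₐ[F] F', τ = a ∨ τ = b := by
      intro τ
      have : τ ∈ ({a, b} : Set (F' ≃ₐ[F] F')) := by rw [h]; trivial
      simpa using this
    rcases h' 1 with h1 | h1
    · exact ⟨b, by rw [h1]; exact hab.symm, by rw [h1]; exact h'⟩
    · refine ⟨a, by rw [h1]; exact hab, fun τ => ?_⟩
      rw [h1]
      exact (h' τ).symm
  have hfix : ∀ x, σ x = x → x ∈ Set.range (algebraMap F F') := by
    intro x hx
    rw [IsGalois.mem_range_algebraMap_iff_fixed]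
    intro f
    rcases hall f with h | h
    · rw [h]; rfl
    · rw [h]; exact hx
  refine ⟨σ, ?_, hfix, hall⟩
  have h1 : (σ θ) ^ 2 = θ ^ 2 := by rw [← map_pow, hθ, AlgEquiv.commutes]
  rcases sq_eq_sq_iff_eq_or_eq_neg.1 h1 with h | h
  · exact absurd (hfix θ h) hn
  · exact h

variable {F F' : Type} [Field F] [CharZero F] [Field F'] [CharZero F'] [Algebra F F']

/-- the affine points -/
def Sol {F : Type} [Field F] (δ : F) : Set (F × F) := {p | p.2 ^ 2 = p.1 ^ 3 + δ * p.1}

lemma q4_equation {L : Type} [Field L] (δ x y : L) :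
    (q4 δ).toAffine.Equation x y ↔ y ^ 2 = x ^ 3 + δ * x := by
  rw [WeierstrassCurve.Affine.equation_iff]
  unfold q4
  simp only [zero_mul, add_zero]

lemma q4_Δ_ne {L : Type} [Field L] [CharZero L] {δ : L} (hδ : δ ≠ 0) : (q4 δ).Δ ≠ 0 := by
  rw [q4_Δ]
  exact mul_ne_zero (by norm_num) (pow_ne_zero 3 hδ)

lemma q4_ns {L : Type} [Field L] [CharZero L] {δ : L} (hδ : δ ≠ 0) (x y : L) :
    (q4 δ).toAffine.Nonsingular x y ↔ y ^ 2 = x ^ 3 + δ * x := by
  rw [← WeierstrassCurve.Affine.equation_iff_nonsingular_of_Δ_ne_zero (q4_Δ_ne hδ), q4_equation]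

lemma sol_finite {L : Type} [Field L] [CharZero L] {δ : L} (hδ : δ ≠ 0) :
    Finite (q4 δ).toAffine.Point ↔ (Sol δ).Finite := by
  classical
  constructor
  · intro h
    have h1 : Function.Injective (fun p : Sol δ =>
        (WeierstrassCurve.Affine.Point.some p.1.1 p.1.2 ((q4_ns hδ _ _).2 p.2) :
          (q4 δ).toAffine.Point)) := by
      rintro ⟨⟨x, y⟩, hp⟩ ⟨⟨x', y'⟩, hp'⟩ h
      simp only [WeierstrassCurve.Affine.Point.some.injEq] at h
      apply Subtype.ext
      exact Prod.ext h.1 h.2
    have h2 := Finite.of_injective _ h1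
    exact Set.toFinite _
  · intro h
    have hf : Finite (Sol δ) := h
    let f : (q4 δ).toAffine.Point → Option (Sol δ) := fun P => match P with
      | 0 => none
      | .some x y h => some ⟨(x, y), (q4_ns hδ x y).1 h⟩
    refine Finite.of_injective f ?_
    rintro (_ | ⟨x, y, h⟩) (_ | ⟨x', y', h'⟩) hfe
    · rfl
    · exact absurd hfe (by simp [f])
    · exact absurd hfe (by simp [f])
    · have h1 : (⟨(x, y), (q4_ns hδ x y).1 h⟩ : Sol δ) = ⟨(x', y'), (q4_ns hδ x' y').1 h'⟩ :=
        Option.some.inj hfe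
      have h2 := congrArg Subtype.val h1
      simp only [Prod.mk.injEq] at h2
      simp only [WeierstrassCurve.Affine.Point.some.injEq]
      exact h2

/-- the points of the curve over the extension -/
abbrev GP (F F' : Type) [Field F] [Field F'] [Algebra F F'] (δ : F) : Type :=
  ((q4 δ).baseChange F').toAffine.Point

lemma base_ns (δ : F) (hδ : δ ≠ 0) (x y : F') :
    ((q4 δ).baseChange F').toAffine.Nonsingular x y ↔ y ^ 2 = x ^ 3 + algebraMap F F' δ * x := by
  have h : (q4 δ).baseChange F' = q4 (algebraMap F F' δ) := q4_map _ _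
  rw [h]
  exact q4_ns (by rwa [Ne, map_eq_zero]) x y

open Classical in
/-- **finiteness in a quadratic extension** -/
theorem fin_step (h2 : Module.finrank F F' = 2) {θ : F'} {d δ : F} (hθ : θ ^ 2 = algebraMap F F' d)
    (hn : θ ∉ Set.range (algebraMap F F')) (hδ : δ ≠ 0)
    (h1 : Finite (q4 δ).toAffine.Point) (hd : Finite (q4 (δ * d ^ 2)).toAffine.Point) :
    Finite (q4 (algebraMap F F' δ)).toAffine.Point := by
  obtain ⟨σ, hσθ, hfix, -⟩ := quad_conj h2 hθ hn
  have hθ0 : θ ≠ 0 := by
    rintro rfl
    exact hn ⟨0, map_zero _⟩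
  have hd0 : d ≠ 0 := by
    rintro rfl
    rw [map_zero] at hθ
    exact hθ0 (pow_eq_zero_iff two_ne_zero |>.1 hθ)
  have hd0' : algebraMap F F' d ≠ 0 := by rwa [Ne, map_eq_zero]
  have S1 : (Sol δ).Finite := (sol_finite hδ).1 h1
  have S2 : (Sol (δ * d ^ 2)).Finite := (sol_finite (mul_ne_zero hδ (pow_ne_zero 2 hd0))).1 hd
  -- the action
  let ac : GP F F' δ →+ GP F F' δ := WeierstrassCurve.Affine.Point.map (W' := q4 δ) σ.toAlgHom
  have hac : ∀ (x y : F') (h : ((q4 δ).baseChange F').toAffine.Nonsingular x y), ∃ h',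
      ac (WeierstrassCurve.Affine.Point.some x y h) =
        WeierstrassCurve.Affine.Point.some (σ x) (σ y) h' := fun x y h =>
    ⟨_, WeierstrassCurve.Affine.Point.map_some (W' := q4 δ) (f := σ.toAlgHom) h⟩
  have hneg : ∀ (x y : F'), ((q4 δ).baseChange F').toAffine.negY x y = -y := by
    intro x y
    unfold WeierstrassCurve.Affine.negY
    have h3 : ((q4 δ).baseChange F').a₁ = 0 := by
      show algebraMap F F' 0 = 0
      exact map_zero _
    have h4 : ((q4 δ).baseChange F').a₃ = 0 := by
      show algebraMap F F' 0 = 0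
      exact map_zero _
    rw [h3, h4]
    ring
  have hinv : ∀ x, σ (σ x) = x := by
    intro x
    have h3 : x = (x + σ x) / 2 + (x - σ x) / 2 := by ring
    have : Module.finrank F F' = 2 := h2
    have hq : Algebra.IsQuadraticExtension F F' := { finrank_eq_two' := h2 }
    have hg : IsGalois F F' := inferInstance
    have hcard : Nat.card (F' ≃ₐ[F] F') = 2 := by
      rw [IsGalois.card_aut_eq_finrank, h2]
    have h4 : σ ^ 2 = 1 := by rw [← hcard]; exact pow_card_eq_one'
    have h5 := congrArg (fun f : F' ≃ₐ[F] F' => f x) h4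
    rw [sq] at h5
    exact h5
  -- the fixed points
  let k1 : F × F → GP F F' δ := fun p =>
    if h : ((q4 δ).baseChange F').toAffine.Nonsingular (algebraMap F F' p.1) (algebraMap F F' p.2)
      then WeierstrassCurve.Affine.Point.some _ _ h else 0
  have T1 : {P : GP F F' δ | ac P = P}.Finite := by
    refine ((S1.image k1).union (Set.finite_singleton 0)).subset ?_
    rintro (_ | ⟨x, y, h⟩) hP
    · right; rfl
    · left
      obtain ⟨h', hh⟩ := hac x y h
      rw [Set.mem_setOf_eq, hh] at hP
      simp only [WeierstrassCurve.Affine.Point.some.injEq] at hP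
      obtain ⟨a, ha⟩ := hfix x hP.1
      obtain ⟨b, hb⟩ := hfix y hP.2
      refine ⟨(a, b), ?_, ?_⟩
      · have h3 := (base_ns δ hδ x y).1 h
        rw [← ha, ← hb] at h3
        apply (algebraMap F F').injective
        simp only [map_pow, map_add, map_mul]
        exact h3
      · have h4 : ((q4 δ).baseChange F').toAffine.Nonsingular (algebraMap F F' a)
            (algebraMap F F' b) := by rw [ha, hb]; exact h
        show k1 (a, b) = _
        simp only [k1]
        rw [dif_pos h4]
        simp only [WeierstrassCurve.Affine.Point.some.injEq]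
        exact ⟨ha, hb⟩
  let k2 : F × F → GP F F' δ := fun p =>
    if h : ((q4 δ).baseChange F').toAffine.Nonsingular (algebraMap F F' (p.1 / d))
      (algebraMap F F' (p.2 / d ^ 2) * θ)
      then WeierstrassCurve.Affine.Point.some _ _ h else 0
  have T2 : {P : GP F F' δ | ac P = -P}.Finite := by
    refine ((S2.image k2).union (Set.finite_singleton 0)).subset ?_
    rintro (_ | ⟨x, y, h⟩) hP
    · right; rfl
    · left
      obtain ⟨h', hh⟩ := hac x y h
      rw [Set.mem_setOf_eq, hh, WeierstrassCurve.Affine.Point.neg_some] at hP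
      simp only [WeierstrassCurve.Affine.Point.some.injEq] at hP
      rw [hneg] at hP
      obtain ⟨a, ha⟩ := hfix x hP.1
      obtain ⟨b, hb⟩ := hfix (y / θ) (by rw [map_div₀, hP.2, hσθ, neg_div_neg_eq])
      have hy : y = algebraMap F F' b * θ := by rw [hb]; field_simp
      refine ⟨(a * d, b * d ^ 2), ?_, ?_⟩
      · have h3 := (base_ns δ hδ x y).1 h
        rw [← ha, hy] at h3
        apply (algebraMap F F').injective
        simp only [map_pow, map_add, map_mul]
        linear_combination (algebraMap F F' d) ^ 3 * h3 -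
          (algebraMap F F' d) ^ 3 * (algebraMap F F' b) ^ 2 * hθ
      · have e1 : algebraMap F F' (a * d / d) = x := by rw [mul_div_cancel_right₀ a hd0, ha]
        have e2 : algebraMap F F' (b * d ^ 2 / d ^ 2) * θ = y := by
          rw [mul_div_cancel_right₀ b (pow_ne_zero 2 hd0), hy]
        have h4 : ((q4 δ).baseChange F').toAffine.Nonsingular (algebraMap F F' (a * d / d))
            (algebraMap F F' (b * d ^ 2 / d ^ 2) * θ) := by rw [e1, e2]; exact h
        show k2 (a * d, b * d ^ 2) = _
        simp only [k2]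
        rw [dif_pos h4]
        simp only [WeierstrassCurve.Affine.Point.some.injEq]
        exact ⟨e1, e2⟩
  -- the points of order two
  let δ' : F' := algebraMap F F' δ
  have hδ' : δ' ≠ 0 := by
    show algebraMap F F' δ ≠ 0
    rwa [Ne, map_eq_zero]
  have hroots : {x : F' | x ^ 3 + δ' * x = 0}.Finite := by
    have h3 : (Polynomial.X ^ 3 + Polynomial.C δ' * Polynomial.X : Polynomial F') ≠ 0 := by
      intro h4
      have h5 := congrArg (fun p => Polynomial.eval 1 p) h4
      have h6 := congrArg (fun p => Polynomial.eval (-1) p) h4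
      have h7 := congrArg (fun p => Polynomial.eval 2 p) h4
      simp at h5 h6 h7
      have h8 : (6 : F') = 0 := by linear_combination h7 - 2 * h5
      norm_num at h8
    refine (Polynomial.finite_setOf_isRoot h3).subset fun x hx => ?_
    simp only [Set.mem_setOf_eq, Polynomial.IsRoot.def, Polynomial.eval_add, Polynomial.eval_pow,
      Polynomial.eval_X, Polynomial.eval_mul, Polynomial.eval_C] at hx ⊢
    exact hx
  let k3 : F' → GP F F' δ := fun x =>
    if h : ((q4 δ).baseChange F').toAffine.Nonsingular x 0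
      then WeierstrassCurve.Affine.Point.some _ _ h else 0
  have T3 : {P : GP F F' δ | (2 : ℕ) • P = 0}.Finite := by
    refine ((hroots.image k3).union (Set.finite_singleton 0)).subset ?_
    rintro (_ | ⟨x, y, h⟩) hP
    · right; rfl
    · left
      rw [Set.mem_setOf_eq, two_smul] at hP
      have h3 := eq_neg_of_add_eq_zero_left hP
      rw [WeierstrassCurve.Affine.Point.neg_some] at h3
      simp only [WeierstrassCurve.Affine.Point.some.injEq] at h3
      rw [hneg] at h3
      have hy : y = 0 := by
        have h4 : 2 * y = 0 := by linear_combination h3.2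
        rcases mul_eq_zero.1 h4 with h5 | h5
        · norm_num at h5
        · exact h5
      subst hy
      refine ⟨x, ?_, ?_⟩
      · have h4 := (base_ns δ hδ x 0).1 h
        show x ^ 3 + algebraMap F F' δ * x = 0
        rw [← h4]; ring
      · simp only [k3]
        rw [dif_pos h]
  -- all points
  have key : (Set.univ : Set (GP F F' δ)).Finite := by
    have hT : (Set.image2 (· + ·) {P : GP F F' δ | ac P = P} {P : GP F F' δ | ac P = -P}).Finite :=
      T1.image2 _ T2
    refine (hT.preimage' (f := fun P : GP F F' δ => (2 : ℕ) • P) fun Q _ => ?_).subset ?_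
    · by_cases hQ : ∃ P0 : GP F F' δ, (2 : ℕ) • P0 = Q
      · obtain ⟨P0, hP0⟩ := hQ
        refine (T3.image (fun P => P + P0)).subset fun P hP => ?_
        rw [Set.mem_preimage, Set.mem_singleton_iff] at hP
        refine ⟨P - P0, ?_, by simp⟩
        rw [Set.mem_setOf_eq, smul_sub, hP, hP0, sub_self]
      · refine Set.finite_empty.subset fun P hP => ?_
        exact hQ ⟨P, hP⟩
    · intro P _
      rw [Set.mem_preimage]
      have hinv' : ∀ Q : GP F F' δ, ac (ac Q) = Q := by
        rintro (_ | ⟨x, y, h⟩)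
        · rfl
        · obtain ⟨h', hh⟩ := hac x y h
          rw [hh]
          obtain ⟨h'', hh'⟩ := hac _ _ h'
          rw [hh']
          simp only [WeierstrassCurve.Affine.Point.some.injEq]
          exact ⟨hinv x, hinv y⟩
      refine ⟨P + ac P, ?_, P - ac P, ?_, ?_⟩
      · show ac (P + ac P) = P + ac P
        rw [map_add, hinv', add_comm]
      · show ac (P - ac P) = -(P - ac P)
        rw [map_sub, hinv', neg_sub]
      · show P + ac P + (P - ac P) = (2 : ℕ) • P
        rw [two_smul]; abel
  have hfin : Finite (GP F F' δ) := Set.finite_univ_iff.1 key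
  have h : (q4 δ).baseChange F' = q4 (algebraMap F F' δ) := q4_map _ _
  have e : GP F F' δ = (q4 (algebraMap F F' δ)).toAffine.Point := by
    unfold GP; rw [h]
  rw [← e]
  exact hfin

end Pool.Agent.L7h3.MQ
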