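import Pool.Agent.L7h3.MQ.Tw

/-!
# The induction over the multiquadratic extensions
-/

set_option autoImplicit false
set_option linter.unusedSectionVars false

open NumberField IsDedekindDomain

namespace Pool.Agent.L7h3.MQ

open scoped Classical
open WithZero
open Pool.Agent.Y699
open Pool.Agent.W189.NF (aV eV)
open Pool.Agent.H921R2.TatePole (nm two_le_nm below)
open H385 (ZI RQ im1 nrm)
open Pool.Agent.H304R2.EC.A1 (prim prim_mul prim_cancel prim_one prim_norm_odd prim_star eq_one_of_prim
  norm_def' re_mul' im_mul' eq_of_dvd prim_ne_zero exists_prim)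
open Pool.Agent.Y696 (HBd LSeries_hasProd')
open Pool.Agent.W164.RC (Ip Ip_spec)
open Pool.Agent.Y715.Z

variable {ι : Type} [DecidableEq ι] {pr : ι → ZI}

/-- what is proved for a field of the tower -/
def Good {F : Type} [Field F] [NumberField F] (pr : ι → ZI) (V : Finset ι) (γ : ZI →+* 𝓞 F) : Prop :=
  Inv pr V γ ∧ ∀ ex : ι → ℕ, (∀ i ∈ V, ex i % 2 = 1) → Wt pr V ex % 4 = 3 →
    Concl ((γ (DE pr V ex) : 𝓞 F) : F)

/-- the base field -/
theorem base_good [Fintype ι] {F : Type} [Field F] [NumberField F] (e : ZI ≃+* 𝓞 F) (hp : PF pr)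
    {V : Finset ι} (hw : ∑ i ∈ V, wt pr i = 1)
    (hker : ∀ z : ι → ZMod 2, (∀ v ∈ V, ∑ u ∈ V, em pr u v * (z u + z v) = 0) →
      ∀ u ∈ V, ∀ v ∈ V, z u = z v) : Good pr V (e : ZI →+* 𝓞 F) := by
  have hplc : ∀ {z : ZI} (hz : Prime z) (P : HeightOneSpectrum (𝓞 F)), e z ∈ P.asIdeal →
      P = plc e hz := by
    intro z hz P h
    have h1 := pg_span e P
    have h2 : pg e P ∣ z := (mem_iff e h1 z).1 h
    have h3 : Associated (pg e P) z := (pg_prime e P).associated_of_dvd hz h2
    apply HeightOneSpectrum.ext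
    rw [h1]
    show _ = Ideal.span {e z}
    rw [Ideal.span_singleton_eq_span_singleton]
    exact h3.map e
  refine ⟨⟨?_, ?_⟩, ?_⟩
  · intro P hP
    have h2 : e pi1 ∈ P.asIdeal := by
      have h : (2 : ZI) = pi1 ^ 2 * (-im1) := by decide
      have h1 : (2 : 𝓞 F) = e pi1 ^ 2 * e (-im1) := by
        rw [← map_pow, ← map_mul, ← h, map_ofNat]
      rw [h1] at hP
      rcases P.isPrime.mem_or_mem hP with h3 | h3
      · exact P.isPrime.mem_of_pow_mem 2 h3
      · exfalso
        apply P.isPrime.ne_top
        refine Ideal.eq_top_of_isUnit_mem _ h3 ?_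
        refine IsUnit.map e ?_
        refine IsUnit.of_mul_eq_one im1 ?_
        decide
    rw [hplc pi1_prime P h2]
    exact val_two1 e
  · intro i hi P hP
    left
    have h1 : e (pr i) ∈ P.asIdeal := hP
    have h2 := val_z (K := F) e (hp.pp i).pr
    rw [← hplc (hp.pp i).pr P h1] at h2
    exact h2
  · intro ex he hW
    obtain ⟨h1, h2⟩ := baseL (K := F) e hp he hW hker
    refine ⟨?_, h1, h2⟩
    have hne : em0 e (DE pr V ex) ≠ 0 := em0_ne e (DE_ne hp V ex)
    have h3 : Finite (q4 (em0 e (DE pr V ex))).toAffine.Point := by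
      rw [sol_finite hne]
      have hroots : {x : F | x ^ 3 + em0 e (DE pr V ex) * x = 0}.Finite := by
        set δ' := em0 e (DE pr V ex)
        have h3 : (Polynomial.X ^ 3 + Polynomial.C δ' * Polynomial.X : Polynomial F) ≠ 0 := by
          intro h4
          have h5 := congrArg (fun p => Polynomial.eval 1 p) h4
          have h7 := congrArg (fun p => Polynomial.eval 2 p) h4
          simp at h5 h7
          have h8 : (6 : F) = 0 := by linear_combination h7 - 2 * h5
          norm_num at h8
        refine (Polynomial.finite_setOf_isRoot h3).subset fun x hx => ?_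
        simp only [Set.mem_setOf_eq, Polynomial.IsRoot.def, Polynomial.eval_add, Polynomial.eval_pow,
          Polynomial.eval_X, Polynomial.eval_mul, Polynomial.eval_C] at hx ⊢
        exact hx
      refine (hroots.image (fun x => (x, (0 : F)))).subset ?_
      rintro ⟨x, y⟩ hxy
      have h4 : y ^ 2 = x ^ 3 + em0 e (DE pr V ex) * x := hxy
      have hy := basePts e hp he hW hw hker h4
      subst hy
      refine ⟨x, ?_, rfl⟩
      show x ^ 3 + em0 e (DE pr V ex) * x = 0
      rw [← h4]; ring
    exact h3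

section step

variable {F F' : Type} [Field F] [NumberField F] [Field F'] [NumberField F'] [Algebra F F']

lemma Wt_twist (hp : PF pr) {V S : Finset ι} (hS : S ⊆ V) (hN : (DD pr S).norm % 8 = 1)
    {ex : ι → ℕ} (hW : Wt pr V ex % 4 = 3) :
    Wt pr V (fun i => if i ∈ S then ex i + 2 else ex i) % 4 = 3 := by
  have h1 := norm_DE16 hp S (fun _ => 1)
  rw [DE_ones] at h1
  have h2 : Wt pr V (fun i => if i ∈ S then ex i + 2 else ex i) =
      Wt pr V ex + 2 * Wt pr S (fun _ => 1) := by
    unfold Wt
    have h3 : ∀ i ∈ V, (if i ∈ S then ex i + 2 else ex i) * wq (pr i) =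
        ex i * wq (pr i) + if i ∈ S then 2 * wq (pr i) else 0 := by
      intro i _
      split_ifs
      · ring
      · ring
    rw [Finset.sum_congr rfl h3, Finset.sum_add_distrib, Finset.mul_sum, ← Finset.sum_filter]
    congr 1
    have h4 : V.filter (· ∈ S) = S := by
      ext i
      rw [Finset.mem_filter]
      exact ⟨fun h => h.2, fun h => ⟨hS h, h⟩⟩
    rw [h4]
    exact Finset.sum_congr rfl fun i _ => by ring
  rw [h2]
  omega

lemma DE_twist {V S : Finset ι} (hS : S ⊆ V) (ex : ι → ℕ) :
    DE pr V (fun i => if i ∈ S then ex i + 2 else ex i) = DE pr V ex * DD pr S ^ 2 := by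
  unfold DE DD
  have h3 : ∀ i ∈ V, pr i ^ (if i ∈ S then ex i + 2 else ex i) =
      pr i ^ ex i * if i ∈ S then pr i ^ 2 else 1 := by
    intro i _
    split_ifs
    · rw [pow_add]
    · rw [mul_one]
  rw [Finset.prod_congr rfl h3, Finset.prod_mul_distrib, ← Finset.prod_filter, ← Finset.prod_pow]
  have h4 : V.filter (· ∈ S) = S := by
    ext i
    rw [Finset.mem_filter]
    exact ⟨fun h => h.2, fun h => ⟨hS h, h⟩⟩
  rw [h4]

/-- **the step of the tower** -/
theorem Good.step {V S : Finset ι} {γ : ZI →+* 𝓞 F} (H : Good pr V γ) (hp : PF pr) (hS : S ⊆ V)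
    (hγ : Function.Injective γ)
    (hN : (DD pr S).norm % 8 = 1) (h2 : Module.finrank F F' = 2) {θ : 𝓞 F'}
    (hθ : θ ^ 2 = algebraMap (𝓞 F) (𝓞 F') (γ (DD pr S)))
    (hn : (θ : F') ∉ Set.range (algebraMap F F')) :
    Good pr V ((algebraMap (𝓞 F) (𝓞 F')).comp γ) := by
  have hθ' : (θ : F') ^ 2 = algebraMap F F' ((γ (DD pr S) : 𝓞 F) : F) := by
    have h5 : ((θ ^ 2 : 𝓞 F') : F') =
      ((algebraMap (𝓞 F) (𝓞 F') (γ (DD pr S)) : 𝓞 F') : F') := by rw [hθ]
    exact h5
  obtain ⟨σ, hσ, -, -⟩ := quad_conj h2 hθ' hn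
  have hI := H.1.step hp hN h2 σ hθ hσ
  refine ⟨hI, fun ex he hW => ?_⟩
  have he' : ∀ i ∈ V, (fun i => if i ∈ S then ex i + 2 else ex i) i % 2 = 1 := by
    intro i hi
    have := he i hi
    show (if i ∈ S then ex i + 2 else ex i) % 2 = 1
    split_ifs
    · omega
    · exact this
  have hW' := Wt_twist hp hS hN hW
  have e1 : γ (DE pr V (fun i => if i ∈ S then ex i + 2 else ex i)) =
      γ (DE pr V ex) * γ (DD pr S) ^ 2 := by
    rw [DE_twist hS, map_mul, map_pow]
  have hmem : ∀ P : HeightOneSpectrum (𝓞 F), (2 : 𝓞 F) * γ (DE pr V ex) * γ (DD pr S) ∈ P.asIdeal →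
      (2 : 𝓞 F) ∈ P.asIdeal ∨ ∃ i ∈ V, γ (pr i) ∈ P.asIdeal := by
    intro P hP
    rcases P.isPrime.mem_or_mem hP with h | h
    · rcases P.isPrime.mem_or_mem h with h | h
      · exact Or.inl h
      · exact Or.inr (prod_mem h)
    · right
      rw [← DE_ones] at h
      obtain ⟨i, hi, h3⟩ := prod_mem h
      exact ⟨i, hS hi, h3⟩
  have c1 := H.2 ex he hW
  have c2 := H.2 _ he' hW'
  rw [e1] at c2
  refine concl_step h2 (θ := θ) (d := γ (DD pr S)) (δ := γ (DE pr V ex)) ?_ hθ hn ?_ ?_ ?_ c1 c2
  · rw [Ne, map_eq_zero_iff _ hγ]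
    exact DE_ne hp V ex
  · intro P hP
    exact H.1.bad hp he hW (hmem P hP)
  · intro P hP
    rw [← e1]
    exact H.1.bad hp he' hW' (hmem P hP)
  · intro v hv
    refine hI.bad hp he hW ?_
    have h3 := hmem (und (F := F) v) ((mem_und v _).2 hv)
    rcases h3 with h3 | ⟨i, hi, h3⟩
    · left
      rw [mem_und, map_ofNat] at h3
      exact h3
    · exact Or.inr ⟨i, hi, h3⟩

end step

lemma finrank_two {M F : Type} [Field M] [Field F] [Algebra M F] [FiniteDimensional M F] {x : F}
    {c : M} (hx : x ^ 2 = algebraMap M F c) (hn : x ∉ Set.range (algebraMap M F))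
    (htop : IntermediateField.adjoin M {x} = ⊤) : Module.finrank M F = 2 := by
  have hint : IsIntegral M x := Algebra.IsIntegral.isIntegral x
  have h1 : Module.finrank M F = (minpoly M x).natDegree := by
    rw [← IntermediateField.finrank_top', ← htop, IntermediateField.adjoin.finrank hint]
  rw [h1]
  apply le_antisymm
  · have h2 : minpoly M x ∣ Polynomial.X ^ 2 - Polynomial.C c := by
      apply minpoly.dvd
      simp [hx]
    have h3 : (Polynomial.X ^ 2 - Polynomial.C c : Polynomial M) ≠ 0 :=
      (Polynomial.monic_X_pow_sub_C c two_ne_zero).ne_zero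
    have h4 := Polynomial.natDegree_le_of_dvd h2 h3
    rwa [Polynomial.natDegree_X_pow_sub_C] at h4
  · rw [minpoly.two_le_natDegree_iff hint]
    exact hn

/-- **the induction** -/
theorem tower [Fintype ι] {K : Type} [Field K] [NumberField K] (e : ZI ≃+* 𝓞 K) (hp : PF pr)
    {V : Finset ι} (hw : ∑ i ∈ V, wt pr i = 1)
    (hker : ∀ z : ι → ZMod 2, (∀ v ∈ V, ∑ u ∈ V, em pr u v * (z u + z v) = 0) →
      ∀ u ∈ V, ∀ v ∈ V, z u = z v) :
    ∀ (n : ℕ) (F : Type) [Field F] [NumberField F] [Algebra K F] (T : Finset F), T.card = n →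
      (∀ t ∈ T, ∃ S ⊆ V, (DD pr S).norm % 8 = 1 ∧
        t ^ 2 = algebraMap K F ((e (DD pr S) : 𝓞 K) : K)) →
      IntermediateField.adjoin K (T : Set F) = ⊤ →
      Good pr V ((algebraMap (𝓞 K) (𝓞 F)).comp (e : ZI →+* 𝓞 K)) := by
  intro n
  induction n with
  | zero =>
    intro F _ _ _ T hT _ htop
    rw [Finset.card_eq_zero] at hT
    subst hT
    rw [Finset.coe_empty, IntermediateField.adjoin_empty] at htop
    have hbij : Function.Bijective (algebraMap K F) := by
      refine ⟨(algebraMap K F).injective, fun x => ?_⟩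
      have hx : x ∈ (⊤ : IntermediateField K F) := trivial
      rw [← htop, IntermediateField.mem_bot] at hx
      exact hx
    let eF : ZI ≃+* 𝓞 F := e.trans (RingOfIntegers.mapRingEquiv (RingEquiv.ofBijective _ hbij))
    have h1 : (algebraMap (𝓞 K) (𝓞 F)).comp (e : ZI →+* 𝓞 K) = (eF : ZI →+* 𝓞 F) := by
      apply RingHom.ext
      intro z
      apply RingOfIntegers.ext
      rfl
    rw [h1]
    exact base_good eF hp hw hker
  | succ n ih =>
    intro F _ _ _ T hT hsq htop
    obtain ⟨x, hx⟩ : T.Nonempty := by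
      rw [← Finset.card_pos, hT]; omega
    have hcard : (T.erase x).card = n := by
      rw [Finset.card_erase_of_mem hx, hT]; rfl
    by_cases htop' : IntermediateField.adjoin K ((T.erase x : Finset F) : Set F) = ⊤
    · exact ih F (T.erase x) hcard (fun t ht => hsq t (Finset.mem_of_mem_erase ht)) htop'
    · set M := IntermediateField.adjoin K ((T.erase x : Finset F) : Set F) with hM
      have hTM : ∀ t ∈ T.erase x, t ∈ M := fun t ht =>
        IntermediateField.subset_adjoin K _ (Finset.mem_coe.2 ht)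
      let T' : Finset M := (T.erase x).subtype (· ∈ M)
      have hcard' : T'.card = n := by
        rw [Finset.card_subtype, Finset.filter_true_of_mem hTM, hcard]
      have hsq' : ∀ t ∈ T', ∃ S ⊆ V, (DD pr S).norm % 8 = 1 ∧
          t ^ 2 = algebraMap K M ((e (DD pr S) : 𝓞 K) : K) := by
        intro t ht
        rw [Finset.mem_subtype] at ht
        obtain ⟨S, h1, h2, h3⟩ := hsq t (Finset.mem_of_mem_erase ht)
        refine ⟨S, h1, h2, ?_⟩
        apply Subtype.ext
        exact h3
      have htopM : IntermediateField.adjoin K (T' : Set M) = ⊤ := by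
        have h1 : (IntermediateField.adjoin K (T' : Set M)).map M.val =
            (⊤ : IntermediateField K M).map M.val := by
          rw [IntermediateField.adjoin_map]
          have h2 : (M.val '' (T' : Set M)) = ((T.erase x : Finset F) : Set F) := by
            ext t
            constructor
            · rintro ⟨t', ht', rfl⟩
              exact Finset.mem_coe.2 (Finset.mem_subtype.1 (Finset.mem_coe.1 ht'))
            · intro ht
              exact ⟨⟨t, hTM t (Finset.mem_coe.1 ht)⟩,
                Finset.mem_coe.2 (Finset.mem_subtype.2 (Finset.mem_coe.1 ht)), rfl⟩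
          rw [h2, ← hM, ← AlgHom.fieldRange_eq_map, IntermediateField.fieldRange_val]
        exact IntermediateField.map_injective M.val h1
      have hG := ih M T' hcard' hsq' htopM
      obtain ⟨S, hS, hN, hx2⟩ := hsq x hx
      have hxM : x ∉ Set.range (algebraMap M F) := by
        rintro ⟨y, hy⟩
        apply htop'
        rw [eq_top_iff, ← htop, IntermediateField.adjoin_le_iff]
        intro t ht
        by_cases htx : t = x
        · rw [htx, ← hy]
          exact y.2
        · exact hTM t (Finset.mem_erase.2 ⟨htx, Finset.mem_coe.1 ht⟩)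
      have hint : IsIntegral ℤ x := by
        refine IsIntegral.of_pow (n := 2) (by norm_num) ?_
        rw [hx2]
        exact (algebraMap (𝓞 K) (𝓞 F) (e (DD pr S))).2
      let θ : 𝓞 F := ⟨x, hint⟩
      have hθ : θ ^ 2 = algebraMap (𝓞 M) (𝓞 F)
          (((algebraMap (𝓞 K) (𝓞 M)).comp (e : ZI →+* 𝓞 K)) (DD pr S)) := by
        apply RingOfIntegers.ext
        show x ^ 2 = _
        rw [hx2]
        rfl
      have h2 : Module.finrank M F = 2 := by
        refine finrank_two (x := x) (c := algebraMap K M ((e (DD pr S) : 𝓞 K) : K)) ?_ hxM ?_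
        · rw [hx2]
          rfl
        · rw [eq_top_iff]
          intro y _
          have hy : y ∈ (⊤ : IntermediateField K F) := trivial
          rw [← htop] at hy
          have hle : IntermediateField.adjoin K (T : Set F) ≤
              (IntermediateField.adjoin M {x}).restrictScalars K := by
            rw [IntermediateField.adjoin_le_iff]
            intro t ht
            show t ∈ (IntermediateField.adjoin M {x})
            by_cases htx : t = x
            · rw [htx]
              exact IntermediateField.mem_adjoin_simple_self M x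
            · exact (IntermediateField.adjoin M {x}).algebraMap_mem
                ⟨t, hTM t (Finset.mem_erase.2 ⟨htx, Finset.mem_coe.1 ht⟩)⟩
          exact hle hy
      have hinj : Function.Injective ((algebraMap (𝓞 K) (𝓞 M)).comp (e : ZI →+* 𝓞 K)) :=
        (FaithfulSMul.algebraMap_injective (𝓞 K) (𝓞 M)).comp e.injective
      have h3 := hG.step (F' := F) hp hS hinj hN h2 hθ hxM
      have h4 : (algebraMap (𝓞 K) (𝓞 F)).comp (e : ZI →+* 𝓞 K) = (algebraMap (𝓞 M) (𝓞 F)).comp
          ((algebraMap (𝓞 K) (𝓞 M)).comp (e : ZI →+* 𝓞 K)) := by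
        apply RingHom.ext
        intro z
        apply RingOfIntegers.ext
        rfl
      rw [h4]
      exact h3

end Pool.Agent.L7h3.MQ
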