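import Pool.Agent.Y715.Z.Lser
import Pool.Agent.L7h3.MQ.Alg

/-!
# The local factors of `y² = x³ + δ x` over a number field
-/

set_option autoImplicit false
set_option linter.unusedSectionVars false

open NumberField IsDedekindDomain

namespace Pool.Agent.L7h3.MQ

open scoped Classical
open WeierstrassCurve WithZero
open Pool.Agent.Y682 (vv vv_coe)
open Pool.Agent.Y698 (AP min_count v_unit)
open Pool.Agent.W189.NF (aV eV redMap Ov mem_max_iff finite_res card_res redMap_eq_zero aLoc eLoc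
  redMap_surjective)
open Pool.Agent.H921R2.TatePole (nm two_le_nm)
open Pool.Agent.Y696 (HBd LSeries_hasProd')
open Pool.Agent.Y715.Z
open Pool.Agent.Y699 (cr4 cr4_Δ cr4_map cnt4)

variable {K : Type} [Field K] [NumberField K]

/-- a unit of the integers has value one -/
lemma vv_unit {v : HeightOneSpectrum (𝓞 K)} {x : v.adicCompletion K}
    (h : (IsDiscreteValuationRing.maximalIdeal (v.adicCompletionIntegers K)).valuation
      (v.adicCompletion K) x = 1) : vv v x = 1 := by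
  obtain ⟨y, rfl⟩ := IsDiscreteValuationRing.exists_lift_of_le_one (A := v.adicCompletionIntegers K)
    (K := v.adicCompletion K) h.le
  rw [IsDedekindDomain.HeightOneSpectrum.valuation_eq_one_iff_notMem] at h
  have h1 : IsUnit y := by
    by_contra h2
    exact h ((IsLocalRing.mem_maximalIdeal _).2 h2)
  exact HeightOneSpectrum.adicCompletionIntegers.isUnit_iff_valued_eq_one.1 h1

/-- the consequences of good reduction -/
lemma good_imp (v : HeightOneSpectrum (𝓞 K)) (δ : v.adicCompletion K)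
    (h : ((q4 δ).minimal (v.adicCompletionIntegers K)).HasGoodReduction
      (v.adicCompletionIntegers K)) :
    ∃ u r s t : v.adicCompletion K, u ≠ 0 ∧ vv v u ^ 12 = vv v (64 * δ ^ 3) ∧
      vv v (2 * s) ≤ vv v u ∧ vv v (3 * r - s ^ 2) ≤ vv v u ^ 2 ∧ vv v (2 * t) ≤ vv v u ^ 3 ∧
      vv v (δ + 3 * r ^ 2 - 2 * s * t) ≤ vv v u ^ 4 ∧
      vv v (r * δ + r ^ 3 - t ^ 2) ≤ vv v u ^ 6 := by
  obtain ⟨C, hC⟩ : ∃ C : VariableChange (v.adicCompletion K),
    (q4 δ).minimal (v.adicCompletionIntegers K) = C • (q4 δ) := ⟨_, rfl⟩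
  have h1 := h.goodReduction
  have h2 := vv_unit h1
  have hint : IsIntegral (v.adicCompletionIntegers K) (C • q4 δ) := by
    rw [← hC]; infer_instance
  rw [hC] at h2
  obtain ⟨⟨W₀, hW₀⟩⟩ := hint
  have hle : ∀ a : v.adicCompletionIntegers K, vv v (algebraMap _ (v.adicCompletion K) a) ≤ 1 :=
    fun a => (HeightOneSpectrum.mem_adicCompletionIntegers (𝓞 K) K v).1 a.2
  have b1 : vv v (C • q4 δ).a₁ ≤ 1 := by rw [hW₀]; exact hle _
  have b2 : vv v (C • q4 δ).a₂ ≤ 1 := by rw [hW₀]; exact hle _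
  have b3 : vv v (C • q4 δ).a₃ ≤ 1 := by rw [hW₀]; exact hle _
  have b4 : vv v (C • q4 δ).a₄ ≤ 1 := by rw [hW₀]; exact hle _
  have b6 : vv v (C • q4 δ).a₆ ≤ 1 := by rw [hW₀]; exact hle _
  obtain ⟨u, hu⟩ : ∃ u : v.adicCompletion K, u = ((C.u : _ˣ) : v.adicCompletion K) := ⟨_, rfl⟩
  have hu0 : u ≠ 0 := by rw [hu]; exact C.u.ne_zero
  have huinv : ((C.u⁻¹ : _ˣ) : v.adicCompletion K) = u⁻¹ := by
    rw [Units.val_inv_eq_inv_val, hu]
  have hvu : vv v u ≠ 0 := (Valuation.ne_zero_iff _).2 hu0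
  have hcl : ∀ (n : ℕ) (x : v.adicCompletion K), vv v (u⁻¹ ^ n * x) ≤ 1 → vv v x ≤ vv v u ^ n := by
    intro n x hx
    rw [map_mul, map_pow, map_inv₀, inv_pow] at hx
    have h5 : vv v x = vv v u ^ n * ((vv v u ^ n)⁻¹ * vv v x) := by
      rw [← mul_assoc, mul_inv_cancel₀ (pow_ne_zero n hvu), one_mul]
    rw [h5]
    exact mul_le_of_le_one_right' hx
  refine ⟨u, C.r, C.s, C.t, hu0, ?_, ?_, ?_, ?_, ?_, ?_⟩
  · rw [WeierstrassCurve.variableChange_Δ, huinv, q4_Δ, map_mul, map_pow, map_inv₀, inv_pow] at h2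
    have h3 : vv v (64 * δ ^ 3) = vv v (-64 * δ ^ 3) := by
      rw [neg_mul, Valuation.map_neg]
    rw [h3]
    have h4 : vv v u ^ 12 ≠ 0 := pow_ne_zero _ hvu
    calc vv v u ^ 12 = vv v u ^ 12 * ((vv v u ^ 12)⁻¹ * vv v (-64 * δ ^ 3)) := by
          rw [h2, mul_one]
      _ = vv v (-64 * δ ^ 3) := by rw [← mul_assoc, mul_inv_cancel₀ h4, one_mul]
  · have := hcl 1 (2 * C.s) (by
      rw [WeierstrassCurve.variableChange_a₁, huinv] at b1
      simpa [q4] using b1)
    rwa [pow_one] at this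
  · refine hcl 2 _ ?_
    rw [WeierstrassCurve.variableChange_a₂, huinv] at b2
    simpa [q4] using b2
  · refine hcl 3 _ ?_
    rw [WeierstrassCurve.variableChange_a₃, huinv] at b3
    simpa [q4] using b3
  · refine hcl 4 _ ?_
    rw [WeierstrassCurve.variableChange_a₄, huinv] at b4
    simpa [q4] using b4
  · refine hcl 6 _ ?_
    rw [WeierstrassCurve.variableChange_a₆, huinv] at b6
    simpa [q4] using b6

/-- additive reduction -/
lemma add_of_not_good {v : HeightOneSpectrum (𝓞 K)} {δ : K}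
    (h : ¬ ((q4 (algebraMap K (v.adicCompletion K) δ)).minimal
      (v.adicCompletionIntegers K)).HasGoodReduction (v.adicCompletionIntegers K)) :
    aV (q4 δ) v = 0 ∧ eV (q4 δ) v = 0 := by
  have hbc : (q4 δ).baseChange (v.adicCompletion K) =
      q4 (algebraMap K (v.adicCompletion K) δ) := q4_map _ _
  unfold aV eV
  rw [hbc]
  refine min_addj (v.adicCompletionIntegers K) h (j := 1728) ?_ (q4_j _)
  have := val_int_le v (1728 : 𝓞 K)
  rw [show ((1728 : 𝓞 K) : K) = (1728 : K) from map_ofNat _ _, map_ofNat] at this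
  exact this

/-- places not above two with a value that is not divisible by four -/
theorem bad_odd {v : HeightOneSpectrum (𝓞 K)} {δ : K} {m : ℤ} (h2 : v.valuation K 2 = 1)
    (hδ : v.valuation K δ = exp (-m)) (hm : m % 4 ≠ 0) :
    aV (q4 δ) v = 0 ∧ eV (q4 δ) v = 0 := by
  apply add_of_not_good
  intro h
  obtain ⟨u, r, s, t, hu0, h1, -⟩ := good_imp v _ h
  have e2 : vv v (64 : v.adicCompletion K) = 1 := by
    have e3 : (64 : v.adicCompletion K) = algebraMap K (v.adicCompletion K) (2 ^ 6) := by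
      rw [map_pow, map_ofNat]; norm_num
    rw [e3, vv_coe, map_pow, h2, one_pow]
  rw [map_mul, e2, one_mul, map_pow, vv_coe, hδ] at h1
  have hvu : vv v u ≠ 0 := (Valuation.ne_zero_iff _).2 hu0
  obtain ⟨k, hk⟩ : ∃ k : ℤ, vv v u = WithZero.exp k := ⟨WithZero.log (vv v u), (WithZero.exp_log hvu).symm⟩
  rw [hk, ← exp_nsmul, ← exp_nsmul, exp_inj] at h1
  simp only [nsmul_eq_mul] at h1
  push_cast at h1
  omega

/-- places above two, unramified over the Gaussian field -/
theorem bad_two {v : HeightOneSpectrum (𝓞 K)} {I : 𝓞 K} (hI : I ^ 2 = -1)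
    (h2 : v.valuation K 2 = exp (-2 : ℤ)) {a b : ℤ} {δ : 𝓞 K}
    (hδ : δ = 3 + 8 * (a : 𝓞 K) + (2 + 4 * (b : 𝓞 K)) * I) :
    aV (q4 (δ : K)) v = 0 ∧ eV (q4 (δ : K)) v = 0 := by
  apply add_of_not_good
  intro h
  have hex := good_imp v _ h
  clear h
  set R := v.adicCompletionIntegers K with hR
  set L := v.adicCompletion K with hL
  set w := vv v with hw
  obtain ⟨u, r, s, t, hu0, hu, k1, k2, k3, k4, k6⟩ := hex
  have hw2 : w (2 : L) = exp (-2 : ℤ) := by
    have e3 : (2 : L) = algebraMap K L 2 := (map_ofNat _ 2).symm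
    rw [e3, hw, vv_coe, h2]
  -- the elements of the ring
  set I' : R := algebraMap (𝓞 K) R I with hI'
  have hI'2 : I' ^ 2 = -1 := by rw [hI', ← map_pow, hI, map_neg, map_one]
  set ϖ : R := 1 + I' with hϖ
  have hle : ∀ a : R, w (algebraMap R L a) ≤ 1 :=
    fun a => (HeightOneSpectrum.mem_adicCompletionIntegers (𝓞 K) K v).1 a.2
  have hlift : ∀ x : L, w x ≤ 1 → ∃ y : R, algebraMap R L y = x := fun x hx =>
    ⟨⟨x, (HeightOneSpectrum.mem_adicCompletionIntegers (𝓞 K) K v).2 hx⟩, rfl⟩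
  have hinj : Function.Injective (algebraMap R L) := IsFractionRing.injective R L
  have hwI : w (algebraMap R L I') = 1 := by
    have h3 : w (algebraMap R L I') ^ 2 = 1 := by
      rw [← map_pow, ← map_pow, hI'2, map_neg, map_one, Valuation.map_neg, map_one]
    exact (pow_eq_one_iff_of_nonneg zero_le (by norm_num)).1 h3
  have hwϖ : w (algebraMap R L ϖ) = exp (-1 : ℤ) := by
    have h3 : ϖ ^ 2 = 2 * I' := by rw [hϖ]; linear_combination hI'2
    have h4 : w (algebraMap R L ϖ) ^ 2 = exp (-2 : ℤ) := by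
      rw [← map_pow, ← map_pow, h3, map_mul, map_mul, hwI, mul_one, map_ofNat, hw2]
    have h5 : w (algebraMap R L ϖ) ≠ 0 := by
      intro h0
      rw [h0, zero_pow two_ne_zero] at h4
      exact (exp_ne_zero).symm h4
    obtain ⟨k, hk⟩ : ∃ k : ℤ, w (algebraMap R L ϖ) = WithZero.exp k :=
      ⟨WithZero.log _, (WithZero.exp_log h5).symm⟩
    rw [hk, ← exp_nsmul, exp_inj] at h4
    simp only [nsmul_eq_mul] at h4
    push_cast at h4
    rw [hk, exp_inj]
    omega
  have hdvd : ∀ (n : ℕ) (x : R), w (algebraMap R L x) ≤ exp (-(n : ℤ)) → ϖ ^ n ∣ x := by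
    intro n x hx
    have hne : algebraMap R L ϖ ≠ 0 := by
      intro h0
      rw [h0, map_zero] at hwϖ
      exact (exp_ne_zero).symm hwϖ
    have hwn : w (algebraMap R L ϖ ^ n) = exp (-(n : ℤ)) := by
      rw [map_pow, hwϖ, ← exp_nsmul]
      congr 1
      simp
    obtain ⟨y, hy⟩ := hlift (algebraMap R L x / algebraMap R L ϖ ^ n) (by
      rw [map_div₀, hwn]
      exact div_le_one_of_le₀ hx zero_le)
    refine ⟨y, ?_⟩
    apply hinj
    rw [map_mul, map_pow, hy, mul_div_cancel₀]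
    exact pow_ne_zero n hne
  have hprime : Prime ϖ := by
    have hne : ϖ ≠ 0 := by
      intro h0
      rw [h0, map_zero, map_zero] at hwϖ
      exact (exp_ne_zero).symm hwϖ
    refine ⟨hne, ?_, ?_⟩
    · intro hu
      have := (HeightOneSpectrum.adicCompletionIntegers.isUnit_iff_valued_eq_one).1 hu
      have h3 : w (algebraMap R L ϖ) = 1 := this
      rw [hwϖ, ← exp_zero, exp_inj] at h3
      omega
    · intro x y hxy
      by_contra hc
      push Not at hc
      have h3 : ∀ z : R, ¬ ϖ ∣ z → w (algebraMap R L z) = 1 := by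
        intro z hz
        by_contra h4
        apply hz
        have h5 : w (algebraMap R L z) < 1 := lt_of_le_of_ne (hle z) h4
        have h6 := hdvd 1 z (by
          have := lt_exp (n := 0) (by simpa using h5)
          simpa using this)
        rwa [pow_one] at h6
      obtain ⟨c, hc'⟩ := hxy
      have h4 := congrArg (fun z => w (algebraMap R L z)) hc'
      simp only [map_mul] at h4
      rw [h3 x hc.1, h3 y hc.2, hwϖ, one_mul] at h4
      have h5 : (exp (-1 : ℤ) : ℤᵐ⁰) * w (algebraMap R L c) < 1 := by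
        calc (exp (-1 : ℤ) : ℤᵐ⁰) * w (algebraMap R L c) ≤ exp (-1 : ℤ) * 1 := by
              gcongr
              exact hle c
          _ < 1 := by rw [mul_one, ← exp_zero, exp_lt_exp]; norm_num
      rw [← h4] at h5
      exact lt_irrefl _ h5
  -- the element `δ`
  set δ' : R := algebraMap (𝓞 K) R δ with hδ'
  have hδL : algebraMap K L (δ : K) = algebraMap R L δ' := by
    rw [hδ', coe_comp']
  have hδR : δ' = 3 + 8 * (a : R) + (2 + 4 * (b : R)) * I' := by
    rw [hδ', hδ]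
    simp only [map_add, map_mul, map_ofNat, map_intCast]
    rfl
  rw [hδL] at hu k4 k6
  have hwδ : w (algebraMap R L δ') = 1 := by
    have h3 : δ' = 1 + 2 * (1 + 4 * (a : R) + (1 + 2 * (b : R)) * I') := by rw [hδR]; ring
    rw [h3, map_add, map_one, map_mul, map_ofNat, Valuation.map_add_eq_of_lt_left, map_one]
    rw [map_one, map_mul, hw2]
    calc (exp (-2 : ℤ) : ℤᵐ⁰) * w (algebraMap R L _) ≤ exp (-2 : ℤ) * 1 := by
          gcongr
          exact hle _
      _ < 1 := by rw [mul_one, ← exp_zero, exp_lt_exp]; norm_num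
  -- the factor
  have hwu : w u = exp (-1 : ℤ) := by
    have e3 : (64 : L) = 2 ^ 6 := by norm_num
    rw [map_mul, map_pow, hwδ, one_pow, mul_one, e3, map_pow, hw2] at hu
    have hvu : w u ≠ 0 := (Valuation.ne_zero_iff _).2 hu0
    obtain ⟨k, hk⟩ : ∃ k : ℤ, w u = WithZero.exp k := ⟨WithZero.log (w u), (WithZero.exp_log hvu).symm⟩
    rw [hk, ← exp_nsmul, ← exp_nsmul, exp_inj] at hu
    simp only [nsmul_eq_mul] at hu
    push_cast at hu
    rw [hk, exp_inj]
    omega
  have hpow : ∀ n : ℕ, (exp (-1 : ℤ) : ℤᵐ⁰) ^ n = exp (-(n : ℤ)) := by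
    intro n
    rw [← exp_nsmul]
    congr 1
    simp
  rw [hwu] at k1 k2 k3 k4 k6
  rw [hpow, Nat.cast_ofNat] at k2 k3 k4 k6
  -- `t`
  have ht : w t ≤ exp (-1 : ℤ) := by
    have h5 : exp (-2 : ℤ) * w t ≤ exp (-3 : ℤ) := by
      rw [← hw2, ← map_mul]
      exact k3
    have h7 : w t = exp (2 : ℤ) * (exp (-2 : ℤ) * w t) := by
      rw [← mul_assoc, ← exp_add]; norm_num
    rw [h7]
    calc exp (2 : ℤ) * (exp (-2 : ℤ) * w t) ≤ exp (2 : ℤ) * exp (-3 : ℤ) := by gcongr
      _ = exp (-1 : ℤ) := by rw [← exp_add]; norm_num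
  have hst : w (2 * s * t) < 1 := by
    rw [map_mul]
    calc w (2 * s) * w t ≤ exp (-1 : ℤ) * exp (-1 : ℤ) := mul_le_mul' k1 ht
      _ = exp (-2 : ℤ) := by rw [← exp_add]; norm_num
      _ < 1 := by rw [← exp_zero, exp_lt_exp]; norm_num
  have hu4 : (exp (-4 : ℤ) : ℤᵐ⁰) < 1 := by rw [← exp_zero, exp_lt_exp]; norm_num
  have h3 : w (3 : L) = 1 := by
    have e3 : (3 : L) = 1 + 2 := by norm_num
    rw [e3, Valuation.map_add_eq_of_lt_left, map_one]
    rw [map_one, hw2, ← exp_zero, exp_lt_exp]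
    norm_num
  -- `r` is a unit
  have hr : w r = 1 := by
    rcases lt_trichotomy (w r) 1 with h5 | h5 | h5
    · exfalso
      have h7 : w (algebraMap R L δ' + 3 * r ^ 2 - 2 * s * t) = 1 := by
        have h8 : w (algebraMap R L δ' + 3 * r ^ 2) = 1 := by
          rw [Valuation.map_add_eq_of_lt_left, hwδ]
          rw [hwδ, map_mul, h3, one_mul, map_pow]
          exact pow_lt_one₀ zero_le h5 two_ne_zero
        rw [Valuation.map_sub_eq_of_lt_left, h8]
        rw [h8]; exact hst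
      rw [h7] at k4
      exact absurd k4 (not_le.2 hu4)
    · exact h5
    · exfalso
      have h7 : w (algebraMap R L δ' + 3 * r ^ 2 - 2 * s * t) = w r ^ 2 := by
        have h9 : w (3 * r ^ 2) = w r ^ 2 := by rw [map_mul, h3, one_mul, map_pow]
        have h10 : 1 < w r ^ 2 := one_lt_pow₀ h5 two_ne_zero
        have h8 : w (algebraMap R L δ' + 3 * r ^ 2) = w r ^ 2 := by
          rw [Valuation.map_add_eq_of_lt_right, h9]
          rw [hwδ, h9]; exact h10
        rw [Valuation.map_sub_eq_of_lt_left, h8]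
        rw [h8]; exact hst.trans h10
      rw [h7] at k4
      exact absurd (one_lt_pow₀ h5 two_ne_zero) (not_lt.2 (k4.trans hu4.le))
  -- `s` is integral
  have hs : w s ≤ 1 := by
    by_contra hc
    push Not at hc
    have h5 : 1 < w s ^ 2 := one_lt_pow₀ hc two_ne_zero
    have h6 : w (3 * r - s ^ 2) = w s ^ 2 := by
      rw [Valuation.map_sub_eq_of_lt_right, map_pow]
      rw [map_mul, h3, hr, one_mul, map_pow]
      exact h5
    rw [h6] at k2
    have h7 : (exp (-2 : ℤ) : ℤᵐ⁰) < 1 := by rw [← exp_zero, exp_lt_exp]; norm_num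
    exact absurd h5 (not_lt.2 (k2.trans h7.le))
  obtain ⟨r', hr'⟩ := hlift r hr.le
  obtain ⟨s', hs'⟩ := hlift s hs
  obtain ⟨t0, ht0⟩ := hlift t (ht.trans (by rw [← exp_zero, exp_le_exp]; norm_num))
  obtain ⟨t', ht'⟩ : ϖ ^ 1 ∣ t0 := by
    apply hdvd
    rw [ht0]
    simpa using ht
  rw [pow_one] at ht'
  have e2' : ϖ ^ 2 = 2 * I' := by rw [hϖ]; linear_combination hI'2
  have m2 : ∀ (n : ℕ) (x : R), w (algebraMap R L x) ≤ exp (-((2 * n : ℕ) : ℤ)) →
      ∃ k : R, x = 2 ^ n * k := by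
    intro n x hx
    obtain ⟨k, hk⟩ := hdvd (2 * n) x hx
    refine ⟨I' ^ n * k, ?_⟩
    rw [hk, pow_mul, e2', mul_pow]
    ring
  obtain ⟨κ2, hκ2⟩ := m2 1 (3 * r' - s' ^ 2) (by
    rw [map_sub, map_mul, map_pow, map_ofNat, hr', hs']
    exact k2)
  obtain ⟨κ4, hκ4⟩ := m2 2 (δ' + 3 * r' ^ 2 - 2 * s' * t0) (by
    rw [map_sub, map_add, map_mul, map_mul, map_mul, map_pow, map_ofNat, map_ofNat, hr', hs', ht0]
    exact k4)
  obtain ⟨κ6, hκ6⟩ := m2 3 (r' * δ' + r' ^ 3 - t0 ^ 2) (by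
    rw [map_sub, map_add, map_mul, map_pow, map_pow, hr', ht0]
    exact k6)
  obtain ⟨b', hb'⟩ : ∃ b' : ℤ, b ^ 2 - b = 2 * b' := by
    rcases Int.even_or_odd' b with ⟨c, hc | hc⟩
    · exact ⟨2 * c ^ 2 - c, by rw [hc]; ring⟩
    · exact ⟨2 * c ^ 2 + c, by rw [hc]; ring⟩
  refine no_good_alg (I := I') (ϖ := ϖ) (r := r') (s := s') (t := t') (a := (a : R)) (b := (b : R))
    (k2 := κ2) (k4 := κ4) (k6 := κ6) (b' := (b' : R)) hI'2 hϖ hprime ?_ ?_ ?_ ?_
  · have := congrArg (Int.cast : ℤ → R) hb'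
    push_cast at this
    exact this
  · rw [hκ2, pow_one]
  · rw [← hδR, ← ht', hκ4]
    norm_num
  · rw [← hδR, ← ht', hκ6]
    norm_num

/-- good places -/
theorem good_place {v : HeightOneSpectrum (𝓞 K)} {δ : 𝓞 K} (h : (2 : 𝓞 K) * δ ∉ v.asIdeal) :
    aV (q4 (δ : K)) v = (nm v : ℤ) - (cnt4 v (Ideal.Quotient.mk v.asIdeal δ) : ℤ) ∧
      eV (q4 (δ : K)) v = (nm v : ℤ) := by
  have hbc : (q4 (δ : K)).baseChange (v.adicCompletion K) =
      q4 (algebraMap K (v.adicCompletion K) (δ : K)) := q4_map _ _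
  have hfin := finite_res v
  have hΔ : (cr4 δ).Δ ∉ v.asIdeal := by
    rw [cr4_Δ]
    intro h1
    have h2 : (2 * δ) ^ 6 ∈ v.asIdeal := by
      have e1 : (2 * δ) ^ 6 = (-64 * δ ^ 3) * (-δ ^ 3) := by ring
      rw [e1]
      exact Ideal.mul_mem_right _ _ h1
    exact h (v.isPrime.mem_of_pow_mem 6 h2)
  have hunit : IsUnit ((cr4 (algebraMap (𝓞 K) (Ov v) δ)).Δ) := by
    have h3 := isUnit_of_notMem' hΔ
    rw [cr4_Δ] at h3 ⊢
    rw [map_mul, map_neg, map_ofNat, map_pow] at h3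
    exact h3
  obtain ⟨c1, c2⟩ := min_count (v.adicCompletionIntegers K) hunit
    (W := (q4 (δ : K)).baseChange (v.adicCompletion K)) (by
      rw [hbc, cr4_mapL, coe_comp'])
  have hAP : Nat.card (AP ((cr4 (algebraMap (𝓞 K) (Ov v) δ)).map
      (IsLocalRing.residue (Ov v)))) = cnt4 v (Ideal.Quotient.mk v.asIdeal δ) := by
    unfold cnt4 AP
    refine (Nat.card_congr (Equiv.subtypeEquiv
      (Equiv.prodCongr (resE v).toEquiv (resE v).toEquiv) fun x => ?_)).symm
    rw [cr4_map, WeierstrassCurve.Affine.equation_iff]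
    unfold cr4
    simp only [zero_mul, add_zero]
    show _ ↔ (resE v x.2) ^ 2 = (resE v x.1) ^ 3 + (redMap v δ) * resE v x.1
    rw [← resE_mk, ← map_pow, ← map_pow, ← map_mul, ← map_add, (resE v).injective.eq_iff]
  constructor
  · unfold aV
    rw [c1, hAP, card_res]
  · unfold eV
    rw [c2, card_res]

end Pool.Agent.L7h3.MQ
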