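import Pool.Agent.L7h3.MQ.Ep

/-!
# Towers of quadratic extensions
-/

set_option autoImplicit false
set_option linter.unusedSectionVars false

open NumberField IsDedekindDomain

namespace Pool.Agent.L7h3.MQ

open scoped Classical
open WithZero
open Pool.Agent.Y699
open Pool.Agent.W189.NF (aV eV)
open Pool.Agent.H921R2.TatePole (nm two_le_nm)
open H385 (ZI RQ im1 nrm)
open Pool.Agent.H304R2.EC.A1 (prim prim_mul prim_cancel prim_one prim_norm_odd prim_star eq_one_of_prim
  norm_def' re_mul' im_mul' eq_of_dvd prim_ne_zero exists_prim)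
open Pool.Agent.Y696 (HBd LSeries_hasProd')
open Pool.Agent.Y715.Z (q4)

section inv

variable {ι : Type} [DecidableEq ι] {pr : ι → ZI}
variable {F : Type} [Field F] [NumberField F]

/-- the local invariants of the fields of the tower -/
structure Inv (pr : ι → ZI) (V : Finset ι) (γ : ZI →+* 𝓞 F) : Prop where
  two : ∀ P : HeightOneSpectrum (𝓞 F), (2 : 𝓞 F) ∈ P.asIdeal → P.valuation F 2 = exp (-2 : ℤ)
  odd : ∀ i ∈ V, ∀ P : HeightOneSpectrum (𝓞 F), γ (pr i) ∈ P.asIdeal →
    P.valuation F (γ (pr i) : F) = exp (-1 : ℤ) ∨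
    (P.valuation F (γ (pr i) : F) = exp (-2 : ℤ) ∧
      ∃ t : 𝓞 F, ∃ u : ZI, t ^ 2 = γ (pr i * u) ∧ ¬ pr i ∣ u)

lemma not_mem {γ : ZI →+* 𝓞 F} {P : HeightOneSpectrum (𝓞 F)} {z c : ZI} (hz : Prime z)
    (h : γ z ∈ P.asIdeal) (hc : ¬ z ∣ c) : γ c ∉ P.asIdeal := by
  intro h1
  obtain ⟨a, b, hab⟩ := (hz.irreducible.coprime_iff_not_dvd).2 hc
  apply P.isPrime.ne_top
  rw [Ideal.eq_top_iff_one]
  have h2 := P.asIdeal.add_mem (P.asIdeal.mul_mem_left (γ a) h) (P.asIdeal.mul_mem_left (γ b) h1)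
  rw [← map_mul, ← map_mul, ← map_add, hab, map_one] at h2
  exact h2

lemma val_one' {P : HeightOneSpectrum (𝓞 F)} {x : 𝓞 F} (h : x ∉ P.asIdeal) :
    P.valuation F (x : F) = 1 :=
  (HeightOneSpectrum.valuation_eq_one_iff_notMem (K := F) (v := P) (r := x)).2 h

lemma prod_mem {γ : ZI →+* 𝓞 F} {P : HeightOneSpectrum (𝓞 F)} {V : Finset ι} {ex : ι → ℕ}
    (h : γ (DE pr V ex) ∈ P.asIdeal) : ∃ i ∈ V, γ (pr i) ∈ P.asIdeal := by
  unfold DE at h
  rw [map_prod] at h
  obtain ⟨i, hi, h1⟩ := (P.isPrime.prod_mem_iff).1 h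
  rw [map_pow] at h1
  exact ⟨i, hi, P.isPrime.mem_of_pow_mem _ h1⟩

/-- the bad places -/
theorem Inv.bad {V : Finset ι} {γ : ZI →+* 𝓞 F} (H : Inv pr V γ) (hp : PF pr) {ex : ι → ℕ}
    (he : ∀ i ∈ V, ex i % 2 = 1) (hW : Wt pr V ex % 4 = 3) {P : HeightOneSpectrum (𝓞 F)}
    (h : (2 : 𝓞 F) ∈ P.asIdeal ∨ ∃ i ∈ V, γ (pr i) ∈ P.asIdeal) :
    aV (q4 ((γ (DE pr V ex) : 𝓞 F) : F)) P = 0 ∧ eV (q4 ((γ (DE pr V ex) : 𝓞 F) : F)) P = 0 := by
  rcases h with h | ⟨i, hi, h⟩
  · obtain ⟨hre, him⟩ := DE_comp hp hW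
    obtain ⟨a, b, hab⟩ := DE_int hre him γ
    refine bad_two (I := γ im1) ?_ (H.two P h) (a := a) (b := b) hab
    rw [← map_pow]
    have : (im1 : ZI) ^ 2 = -1 := by decide
    rw [this, map_neg, map_one]
  · have h2 : (2 : 𝓞 F) ∉ P.asIdeal := by
      have := not_mem (hp.pp i).pr h (not_dvd_two (hp.pp i))
      rwa [map_ofNat] at this
    have h2' : P.valuation F 2 = 1 := by
      have := val_one' h2
      exact_mod_cast this
    have h3 : DE pr V ex = pr i ^ ex i * DE pr (V.erase i) ex := by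
      unfold DE
      exact (Finset.mul_prod_erase V (fun i => pr i ^ ex i) hi).symm
    have h4 : ¬ pr i ∣ DE pr (V.erase i) ex := by
      intro h
      unfold DE at h
      obtain ⟨j, hj, hzj⟩ := ((hp.pp i).pr.dvd_finsetProd_iff _).1 h
      have h5 := (hp.pp i).eq_of_dvd (hp.pp j) ((hp.pp i).pr.dvd_of_dvd_pow hzj)
      exact (Finset.mem_erase.1 hj).1 (hp.inj h5).symm
    have h5 : P.valuation F ((γ (DE pr V ex) : 𝓞 F) : F) =
        P.valuation F ((γ (pr i) : 𝓞 F) : F) ^ ex i := by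
      rw [h3, map_mul, map_pow]
      have h6 : (((γ (pr i) ^ ex i * γ (DE pr (V.erase i) ex) : 𝓞 F)) : F) =
        ((γ (pr i) : 𝓞 F) : F) ^ ex i * ((γ (DE pr (V.erase i) ex) : 𝓞 F) : F) := rfl
      rw [h6, map_mul, map_pow, val_one' (not_mem (hp.pp i).pr h h4), mul_one]
    have h6 := he i hi
    rcases H.odd i hi P h with h7 | ⟨h7, -⟩
    · refine bad_odd (m := (ex i : ℤ)) h2' ?_ (by omega)
      rw [h5, h7, ← exp_nsmul]
      congr 1
      simp
    · refine bad_odd (m := 2 * (ex i : ℤ)) h2' ?_ (by omega)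
      rw [h5, h7, ← exp_nsmul]
      congr 1
      simp
      ring

end inv

section step

variable {ι : Type} [DecidableEq ι] {pr : ι → ZI}
variable {F F' : Type} [Field F] [NumberField F] [Field F'] [NumberField F'] [Algebra F F']

lemma ee_cases (h2 : Module.finrank F F' = 2) {P : HeightOneSpectrum (𝓞 F)}
    {v : HeightOneSpectrum (𝓞 F')} (hv : und v = P) : ee P v = 1 ∨ ee P v = 2 := by
  rcases split_cases h2 P with ⟨v1, v2, hne, hall, hef⟩ | ⟨v0, hall, hef⟩
  · exact Or.inl (hef v hv).1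
  · have h := (hall v).1 hv
    subst h
    have h3 : ee P v ∣ 2 := ⟨_, hef.symm⟩
    rcases (Nat.dvd_prime Nat.prime_two).1 h3 with h | h
    · exact Or.inl h
    · exact Or.inr h

/-- primary elements of norm `1` modulo `8` -/
lemma DD_one_mod_four (hp : PF pr) {S : Finset ι} (hN : (DD pr S).norm % 8 = 1) :
    ∃ k : ZI, DD pr S = 1 + 4 * k := by
  obtain ⟨h1, h2⟩ := DD_prim hp S
  rw [norm_def'] at hN
  have h3 : (DD pr S).im % 4 = 0 := by
    obtain ⟨b, hb⟩ : ∃ b, (DD pr S).im = 2 * b := ⟨(DD pr S).im / 2, by omega⟩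
    obtain ⟨a, ha⟩ : ∃ a, (DD pr S).re = 2 * a + 1 := ⟨(DD pr S).re / 2, by omega⟩
    rw [ha, hb] at hN
    have e1 : (2 * a + 1) ^ 2 + (2 * b) ^ 2 = 4 * (a * (a + 1)) + 4 * b ^ 2 + 1 := by ring
    rw [e1] at hN
    obtain ⟨c, hc⟩ := Int.even_mul_succ_self a
    rw [hc] at hN
    rcases Int.even_or_odd' b with ⟨n, hn | hn⟩
    · omega
    · exfalso
      rw [hn] at hN
      have e2 : (2 * n + 1) ^ 2 = 4 * (n * (n + 1)) + 1 := by ring
      rw [e2] at hN
      obtain ⟨c', hc'⟩ := Int.even_mul_succ_self n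
      rw [hc'] at hN
      omega
  refine ⟨⟨(DD pr S).re / 4, (DD pr S).im / 4⟩, ?_⟩
  have e4 : (4 : ZI) = ((4 : ℤ) : ZI) := by norm_num
  ext
  · rw [Zsqrtd.re_add, e4, re_mul', Zsqrtd.re_intCast, Zsqrtd.im_intCast]
    simp
    omega
  · rw [Zsqrtd.im_add, e4, im_mul', Zsqrtd.re_intCast, Zsqrtd.im_intCast]
    simp
    omega

lemma DE_ones (V : Finset ι) : DE pr V (fun _ => 1) = DD pr V := by
  unfold DE DD
  simp

lemma DD_dvd (hp : PF pr) {S : Finset ι} {i : ι} (hi : i ∉ S) : ¬ pr i ∣ DD pr S := by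
  intro h
  unfold DD at h
  obtain ⟨j, hj, hzj⟩ := ((hp.pp i).pr.dvd_finsetProd_iff _).1 h
  have h5 := (hp.pp i).eq_of_dvd (hp.pp j) hzj
  exact hi ((hp.inj h5).symm ▸ hj)

lemma monic_quad {R : Type*} [CommRing R] [Nontrivial R] (a : R) :
    (Polynomial.X ^ 2 - Polynomial.X - Polynomial.C a : Polynomial R).Monic := by
  monicity!

lemma int_half (θ k : 𝓞 F') (h : (θ : F') ^ 2 = 1 + 4 * (k : F')) :
    IsIntegral ℤ ((1 + (θ : F')) / 2) := by
  have h4 : IsIntegral (𝓞 F') ((1 + (θ : F')) / 2) := by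
    refine ⟨Polynomial.X ^ 2 - Polynomial.X - Polynomial.C k, monic_quad k, ?_⟩
    rw [Polynomial.eval₂_sub, Polynomial.eval₂_sub, Polynomial.eval₂_X_pow,
      Polynomial.eval₂_X, Polynomial.eval₂_C]
    show ((1 + (θ : F')) / 2) ^ 2 - (1 + (θ : F')) / 2 - (k : F') = 0
    linear_combination h / 4
  exact isIntegral_trans _ h4

/-- the invariants of the next field -/
theorem Inv.step {V S : Finset ι} {γ : ZI →+* 𝓞 F} (H : Inv pr V γ) (hp : PF pr)
    (hN : (DD pr S).norm % 8 = 1)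
    (h2 : Module.finrank F F' = 2) (σ : F' ≃ₐ[F] F') {θ : 𝓞 F'}
    (hθ : θ ^ 2 = algebraMap (𝓞 F) (𝓞 F') (γ (DD pr S))) (hσ : σ (θ : F') = -(θ : F')) :
    Inv pr V ((algebraMap (𝓞 F) (𝓞 F')).comp γ) := by
  have hσ' : intAut σ θ = -θ := by
    apply RingOfIntegers.ext
    rw [intAut_coe, hσ]
    rfl
  constructor
  · intro v hv
    have hP : (2 : 𝓞 F) ∈ (und (F := F) v).asIdeal := by
      rw [mem_und, map_ofNat]; exact hv
    have h3 := H.two _ hP
    obtain ⟨k, hk⟩ := DD_one_mod_four hp hN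
    -- `x = (1 + θ) / 2`
    have h5 : (θ : F') ^ 2 = 1 + 4 * ((algebraMap (𝓞 F) (𝓞 F') (γ k) : 𝓞 F') : F') := by
      have h6 : ((θ ^ 2 : 𝓞 F') : F') =
          ((algebraMap (𝓞 F) (𝓞 F') (γ (1 + 4 * k)) : 𝓞 F') : F') := by rw [hθ, hk]
      have h7 : algebraMap (𝓞 F) (𝓞 F') (γ (1 + 4 * k)) =
          1 + 4 * algebraMap (𝓞 F) (𝓞 F') (γ k) := by
        simp only [map_add, map_mul, map_one, map_ofNat]
      rw [h7] at h6
      exact h6
    have hint : IsIntegral ℤ ((1 + (θ : F')) / 2) := int_half θ _ h5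
    let x : 𝓞 F' := ⟨(1 + (θ : F')) / 2, hint⟩
    have hx : intAut σ x - x = -θ := by
      apply RingOfIntegers.ext
      have h5 : ((intAut σ x - x : 𝓞 F') : F') = σ ((1 + (θ : F')) / 2) - (1 + (θ : F')) / 2 := rfl
      rw [h5, map_div₀, map_add, map_one, hσ, map_ofNat]
      show _ = -(θ : F')
      ring
    have hθv : θ ∉ v.asIdeal := by
      intro h
      have h5 : θ ^ 2 ∈ v.asIdeal := Ideal.pow_mem_of_mem _ h 2 (by norm_num)
      rw [hθ, hk] at h5
      simp only [map_add, map_mul, map_one, map_ofNat] at h5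
      have h6 : (4 : 𝓞 F') * algebraMap (𝓞 F) (𝓞 F') (γ k) ∈ v.asIdeal := by
        have e1 : (4 : 𝓞 F') * algebraMap (𝓞 F) (𝓞 F') (γ k) =
          2 * (2 * algebraMap (𝓞 F) (𝓞 F') (γ k)) := by ring
        rw [e1]
        exact v.asIdeal.mul_mem_right _ hv
      have h7 := v.asIdeal.sub_mem h5 h6
      rw [add_sub_cancel_right] at h7
      exact v.isPrime.ne_top ((Ideal.eq_top_iff_one _).2 h7)
    have hun : ee (und (F := F) v) v = 1 := by
      refine unram_of h2 σ rfl (x := x) ?_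
      rw [hx, neg_mem_iff]
      exact hθv
    have h5 := val_und (F := F) (v := v) rfl 2
    rw [hun, pow_one, h3, map_ofNat] at h5
    exact h5
  · intro i hi v hv
    have hP : γ (pr i) ∈ (und (F := F) v).asIdeal := by
      rw [mem_und]; exact hv
    have hvv : v.valuation F' (((algebraMap (𝓞 F) (𝓞 F')) (γ (pr i)) : 𝓞 F') : F') =
        (und (F := F) v).valuation F ((γ (pr i) : 𝓞 F) : F) ^ ee (und (F := F) v) v :=
      val_und (F := F) (v := v) rfl ((γ (pr i) : 𝓞 F) : F)
    have h2v : (2 : 𝓞 F') ∉ v.asIdeal := by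
      have := not_mem (γ := (algebraMap (𝓞 F) (𝓞 F')).comp γ) (P := v) (hp.pp i).pr hv
        (not_dvd_two (hp.pp i))
      rwa [map_ofNat] at this
    -- a square root of an element prime to `π_i`
    have hsq : ∀ (x : 𝓞 F') (c : ZI), x ^ 2 = (algebraMap (𝓞 F) (𝓞 F')) (γ c) → ¬ pr i ∣ c →
        intAut σ x = -x → ee (und (F := F) v) v = 1 := by
      intro x c hx hc hs
      refine unram_of h2 σ rfl (x := x) ?_
      rw [hs]
      intro h
      have e1 : -x - x = -(2 * x) := by ring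
      rw [e1, neg_mem_iff] at h
      rcases v.isPrime.mem_or_mem h with h3 | h3
      · exact h2v h3
      · have h4 : x ^ 2 ∈ v.asIdeal := Ideal.pow_mem_of_mem _ h3 2 (by norm_num)
        rw [hx] at h4
        exact not_mem (γ := (algebraMap (𝓞 F) (𝓞 F')).comp γ) (P := v) (hp.pp i).pr hv hc h4
    by_cases hiS : i ∈ S
    · have hDS : DD pr S = pr i * DD pr (S.erase i) := by
        unfold DD
        exact (Finset.mul_prod_erase S (fun i => pr i) hiS).symm
      have hnd : ¬ pr i ∣ DD pr (S.erase i) := DD_dvd hp (by simp)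
      rcases H.odd i hi _ hP with h3 | ⟨h3, t, u, htu, hu⟩
      · rw [h3] at hvv
        rcases ee_cases h2 (v := v) rfl with h4 | h4
        · left
          rw [h4, pow_one] at hvv
          exact hvv
        · right
          rw [h4, ← exp_nsmul] at hvv
          refine ⟨?_, θ, DD pr (S.erase i), ?_, hnd⟩
          · exact hvv
          · rw [hθ, hDS]
            rfl
      · right
        -- `x = t θ / π_i`
        have hpi0 : (((algebraMap (𝓞 F) (𝓞 F')) (γ (pr i)) : 𝓞 F') : F') ≠ 0 := by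
          intro h0
          rw [h0, map_zero, h3] at hvv
          exact (pow_ne_zero _ (exp_ne_zero)) hvv.symm
        set T : 𝓞 F' := algebraMap (𝓞 F) (𝓞 F') t with hT
        set w : 𝓞 F' := algebraMap (𝓞 F) (𝓞 F') (γ (u * DD pr (S.erase i))) with hw
        set p' : 𝓞 F' := algebraMap (𝓞 F) (𝓞 F') (γ (pr i)) with hp'
        have e1 : (T * θ) ^ 2 = p' ^ 2 * w := by
          rw [mul_pow, hθ, hT, ← map_pow, htu, hDS, hw, hp', ← map_pow, ← map_mul, ← map_mul,
            ← map_pow, ← map_mul, ← map_mul]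
          congr 2
          ring
        have e2 : ((T : F') * (θ : F') / (p' : F')) ^ 2 = (w : F') := by
          have e3 : ((T : F') * (θ : F')) ^ 2 = (p' : F') ^ 2 * (w : F') := by
            have := congrArg (fun y : 𝓞 F' => (y : F')) e1
            exact this
          rw [div_pow, e3]
          field_simp
        have hint : IsIntegral ℤ ((T : F') * (θ : F') / (p' : F')) := by
          refine IsIntegral.of_pow (n := 2) (by norm_num) ?_
          rw [e2]
          exact w.2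
        let x : 𝓞 F' := ⟨(T : F') * (θ : F') / (p' : F'), hint⟩
        have hx2 : x ^ 2 = w := by
          apply RingOfIntegers.ext
          exact e2
        have hσx : intAut σ x = -x := by
          apply RingOfIntegers.ext
          rw [intAut_coe]
          show σ ((T : F') * (θ : F') / (p' : F')) = -((T : F') * (θ : F') / (p' : F'))
          have e4 : σ (T : F') = (T : F') := by
            show σ (algebraMap F F' (t : F)) = _
            rw [AlgEquiv.commutes]
            rfl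
          have e5 : σ (p' : F') = (p' : F') := by
            show σ (algebraMap F F' ((γ (pr i) : 𝓞 F) : F)) = _
            rw [AlgEquiv.commutes]
            rfl
          rw [map_div₀, map_mul, e4, e5, hσ]
          ring
        have hun := hsq x (u * DD pr (S.erase i)) hx2 (by
          intro h
          rcases (hp.pp i).pr.dvd_or_dvd h with h4 | h4
          · exact hu h4
          · exact hnd h4) hσx
        rw [hun, pow_one, h3] at hvv
        refine ⟨hvv, T, u, ?_, hu⟩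
        rw [hT, ← map_pow, htu]
        rfl
    · have hun := hsq θ (DD pr S) hθ (DD_dvd hp hiS) hσ'
      rw [hun, pow_one] at hvv
      rcases H.odd i hi _ hP with h3 | ⟨h3, t, u, htu, hu⟩
      · left
        rw [h3] at hvv
        exact hvv
      · right
        rw [h3] at hvv
        refine ⟨hvv, algebraMap (𝓞 F) (𝓞 F') t, u, ?_, hu⟩
        rw [← map_pow, htu]
        rfl

end step

end Pool.Agent.L7h3.MQ
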